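import Mathlib

/-!
# Signed sumsets: definitions
-/

namespace SignedSum

/-- The `h`-fold signed sumset of `A`: all `∑ c(a) a` with integers `c(a)`, `a ∈ A`, such that
`∑ |c(a)| = h`. -/
def signedSumset {G : Type*} [AddCommGroup G] (h : ℕ) (A : Finset G) : Set G :=
  {x | ∃ c : G → ℤ, ∑ a ∈ A, |c a| = (h : ℤ) ∧ ∑ a ∈ A, c a • a = x}

/-- `ρ_±(G, m, h)`: the least size of `h_± A` over the `m`-subsets `A` of `G`. -/
noncomputable def rhoPM (G : Type*) [AddCommGroup G] (m h : ℕ) : ℕ :=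
  sInf {t | ∃ A : Finset G, A.card = m ∧ t = (signedSumset h A).ncard}

/-- `A` is symmetric: `A = -A`. -/
def IsSymm {G : Type*} [AddCommGroup G] (A : Finset G) : Prop := ∀ a ∈ A, -a ∈ A

/-- `A` is near-symmetric: it is not symmetric, but `A \ {a}` is symmetric for some `a ∈ A`. -/
def NearSymm {G : Type*} [AddCommGroup G] [DecidableEq G] (A : Finset G) : Prop :=
  ¬ IsSymm A ∧ ∃ a ∈ A, IsSymm (A.erase a)

/-- `ρ_±(G, m, h)` is attained by a near-symmetric `m`-subset of `G`. -/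
def NearSymmAttains (G : Type*) [AddCommGroup G] [DecidableEq G] (m h : ℕ) : Prop :=
  ∃ A : Finset G, A.card = m ∧ NearSymm A ∧ (signedSumset h A).ncard = rhoPM G m h

/-- The ceiling `⌈m / d⌉` (for `d ≥ 1`). -/
def cdiv (m d : ℕ) : ℕ := (m + d - 1) / d

/-- `f_d(m, h) = (h ⌈m / d⌉ - h + 1) d` (for `m, d ≥ 1`). -/
def fd (m h d : ℕ) : ℕ := (h * (cdiv m d - 1) + 1) * d

/-- `u(n, m, h)`: the least value of `(h ⌈m / d⌉ - h + 1) d` over the divisors `d` of `n`. -/
noncomputable def u (n m h : ℕ) : ℕ := sInf {t | ∃ d, d ∣ n ∧ t = fd m h d}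

/-- `D(n, m)`: the least divisor of `n` that is at least `m`. -/
noncomputable def leastDiv (n m : ℕ) : ℕ := sInf {d | d ∣ n ∧ m ≤ d}

end SignedSum
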