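import Pool.Agent.Helper24.Kneser
import Pool.Agent.Helper24.SignedSum.Defs

set_option linter.unusedSectionVars false
set_option linter.unusedVariables false

open scoped Pointwise
open Helper24.Kneser

namespace SignedSum

variable {G : Type*} [AddCommGroup G] [DecidableEq G]

/-! ### Ceiling division -/

lemma le_cdiv_mul (m : ℕ) {d : ℕ} (hd : 0 < d) : m ≤ cdiv m d * d := by
  unfold cdiv
  have h1 := Nat.div_add_mod (m + d - 1) d
  have h2 := Nat.mod_lt (m + d - 1) hd
  have h3 : (m + d - 1) / d * d = d * ((m + d - 1) / d) := Nat.mul_comm _ _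
  omega

lemma cdiv_le {m d k : ℕ} (hd : 0 < d) (h : m ≤ k * d) : cdiv m d ≤ k := by
  unfold cdiv
  rw [Nat.div_le_iff_le_mul hd]
  omega

lemma cdiv_pos {m d : ℕ} (hd : 0 < d) (hm : 0 < m) : 0 < cdiv m d := by
  unfold cdiv
  apply Nat.div_pos _ hd
  omega

lemma lt_of_cdiv {m d : ℕ} (hd : 0 < d) (hm : 0 < m) : (cdiv m d - 1) * d < m := by
  by_contra hcon
  push Not at hcon
  have := cdiv_le hd hcon
  have := cdiv_pos hd hm
  omega

lemma cdiv_eq_one {m d : ℕ} (hm : 0 < m) (hmd : m ≤ d) : cdiv m d = 1 := by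
  have hd : 0 < d := by omega
  have h1 : cdiv m d ≤ 1 := cdiv_le hd (by omega)
  have h2 := cdiv_pos hd hm
  omega

lemma dvd_iff_cdiv {m d : ℕ} (hd : 0 < d) (hm : 0 < m) : d ∣ m ↔ cdiv m d * d = m := by
  constructor
  · rintro ⟨k, rfl⟩
    have h1 : cdiv (d * k) d ≤ k := cdiv_le hd (by rw [mul_comm])
    have h2 := le_cdiv_mul (d * k) hd
    have h3 := Nat.mul_le_mul_right d h1
    have h4 : k * d = d * k := mul_comm _ _
    omega
  · intro h
    exact ⟨cdiv m d, by rw [mul_comm]; exact h.symm⟩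

/-! ### The function `u` -/

lemma u_le {n m h d : ℕ} (hd : d ∣ n) : u n m h ≤ fd m h d := Nat.sInf_le ⟨d, hd, rfl⟩

lemma exists_u (n m h : ℕ) : ∃ d, d ∣ n ∧ u n m h = fd m h d :=
  Nat.sInf_mem (s := {t | ∃ d, d ∣ n ∧ t = fd m h d}) ⟨_, 1, one_dvd n, rfl⟩

lemma u_le_self {n m h : ℕ} (hm : 0 < m) (hmn : m ≤ n) : u n m h ≤ n := by
  refine (u_le dvd_rfl).trans ?_
  rw [fd, cdiv_eq_one hm hmn]
  simp

/-! ### Signed sumsets -/

lemma zsmul_mem {B : Finset G} {b : G} (hb : b ∈ B) (hb' : -b ∈ B) (z : ℤ) :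
    z • b ∈ z.natAbs • B := by
  rcases z with n | n
  · simp only [Int.ofNat_eq_natCast, Int.natAbs_natCast, natCast_zsmul]
    exact Finset.nsmul_mem_nsmul hb
  · rw [negSucc_zsmul, ← neg_nsmul, Int.natAbs_negSucc]
    exact Finset.nsmul_mem_nsmul hb'

lemma sum_zsmul_mem {A B : Finset G} (hA : ∀ a ∈ A, a ∈ B ∧ -a ∈ B) (c : G → ℤ) :
    ∑ a ∈ A, c a • a ∈ (∑ a ∈ A, (c a).natAbs) • B := by
  induction A using Finset.induction_on with
  | empty => simp
  | insert a A ha ih =>
    rw [Finset.sum_insert ha, Finset.sum_insert ha, add_nsmul]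
    apply Finset.add_mem_add
    · exact zsmul_mem (hA a (Finset.mem_insert_self _ _)).1 (hA a (Finset.mem_insert_self _ _)).2 _
    · exact ih fun x hx => hA x (Finset.mem_insert_of_mem hx)

lemma signed_subset {A B : Finset G} (hA : ∀ a ∈ A, a ∈ B ∧ -a ∈ B) (h : ℕ) :
    signedSumset h A ⊆ ((h • B : Finset G) : Set G) := by
  rintro x ⟨c, hc, rfl⟩
  have h1 := sum_zsmul_mem hA c
  have h2 : ∑ a ∈ A, (c a).natAbs = h := by
    have : ((∑ a ∈ A, (c a).natAbs : ℕ) : ℤ) = h := by
      rw [← hc, Nat.cast_sum]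
      exact Finset.sum_congr rfl fun a _ => Int.natCast_natAbs (c a)
    exact_mod_cast this
  rw [h2] at h1
  exact Finset.mem_coe.2 h1

lemma mem_nsmul_rep {B : Finset G} {h : ℕ} : ∀ {x : G}, x ∈ h • B →
    ∃ c : G → ℕ, ∑ b ∈ B, c b = h ∧ ∑ b ∈ B, c b • b = x := by
  induction h with
  | zero =>
    intro x hx
    rw [zero_nsmul, Finset.mem_zero] at hx
    exact ⟨fun _ => 0, by simp, by simp [hx]⟩
  | succ h ih =>
    intro x hx
    rw [succ_nsmul] at hx
    obtain ⟨y, hy, b, hb, rfl⟩ := Finset.mem_add.1 hx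
    obtain ⟨c, hc1, hc2⟩ := ih hy
    refine ⟨fun z => c z + if z = b then 1 else 0, ?_, ?_⟩
    · rw [Finset.sum_add_distrib, hc1]
      simp [hb]
    · have : ∀ z ∈ B, (c z + if z = b then 1 else 0) • z = c z • z + if z = b then b else 0 := by
        intro z _
        by_cases hz : z = b
        · subst hz; simp [add_nsmul]
        · simp [hz]
      rw [Finset.sum_congr rfl this, Finset.sum_add_distrib, hc2]
      simp [hb]

lemma nsmul_subset_signed (A : Finset G) (h : ℕ) :
    ((h • A : Finset G) : Set G) ⊆ signedSumset h A := by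
  intro x hx
  obtain ⟨c, hc1, hc2⟩ := mem_nsmul_rep (Finset.mem_coe.1 hx)
  refine ⟨fun z => (c z : ℤ), ?_, ?_⟩
  · rw [← hc1, Nat.cast_sum]
    exact Finset.sum_congr rfl fun a _ => by simp
  · rw [← hc2]
    exact Finset.sum_congr rfl fun a _ => by simp

lemma nsmul_subset_signed_near {S : Finset G} {a : G} (hS : IsSymm S) (hne : S.Nonempty)
    (ha : a ∉ S) (ha' : -a ∉ S) (haa : -a ≠ a) (h : ℕ) :
    ((h • (insert (-a) (insert a S)) : Finset G) : Set G) ⊆ signedSumset h (insert a S) := by
  intro x hx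
  obtain ⟨c, hc1, hc2⟩ := mem_nsmul_rep (Finset.mem_coe.1 hx)
  obtain ⟨t, ht⟩ := hne
  have hna : -a ∉ insert a S := by
    rw [Finset.mem_insert, not_or]; exact ⟨haa, ha'⟩
  rw [Finset.sum_insert hna, Finset.sum_insert ha] at hc1 hc2
  set p := c a
  set q := c (-a)
  set r := min p q
  refine ⟨fun z => if z = a then (p : ℤ) - q else
    (c z : ℤ) + ((if z = t then (r : ℤ) else 0) + (if z = -t then (r : ℤ) else 0)), ?_, ?_⟩
  · rw [Finset.sum_insert ha]
    have h1 : ∀ z ∈ S, |(if z = a then (p : ℤ) - q else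
        (c z : ℤ) + ((if z = t then (r : ℤ) else 0) + (if z = -t then (r : ℤ) else 0)))| =
        (c z : ℤ) + ((if z = t then (r : ℤ) else 0) + (if z = -t then (r : ℤ) else 0)) := by
      intro z hz
      have hza : z ≠ a := fun hh => ha (hh ▸ hz)
      rw [if_neg hza]
      apply abs_of_nonneg
      split_ifs <;> positivity
    rw [Finset.sum_congr rfl h1, Finset.sum_add_distrib, Finset.sum_add_distrib]
    simp only [Finset.sum_ite_eq', ht, hS t ht, if_true]
    rw [← hc1]
    push_cast
    rcases le_total p q with hpq | hpq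
    · have hr : r = p := min_eq_left hpq
      have : |(p : ℤ) - q| = q - p := by
        rw [abs_sub_comm]; exact abs_of_nonneg (by omega)
      rw [this, hr]; ring
    · have hr : r = q := min_eq_right hpq
      have : |(p : ℤ) - q| = p - q := abs_of_nonneg (by omega)
      rw [this, hr]; ring
  · rw [Finset.sum_insert ha]
    have h1 : ∀ z ∈ S, (if z = a then (p : ℤ) - q else
        (c z : ℤ) + ((if z = t then (r : ℤ) else 0) + (if z = -t then (r : ℤ) else 0))) • z =
        c z • z + ((if z = t then (r : ℤ) • t else 0) + (if z = -t then (r : ℤ) • (-t) else 0)) := by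
      intro z hz
      have hza : z ≠ a := fun hh => ha (hh ▸ hz)
      rw [if_neg hza, add_zsmul, add_zsmul, natCast_zsmul]
      congr 1
      congr 1
      · by_cases hzt : z = t
        · simp [hzt]
        · simp [hzt]
      · by_cases hzt : z = -t
        · simp [hzt]
        · simp [hzt]
    rw [Finset.sum_congr rfl h1, Finset.sum_add_distrib, Finset.sum_add_distrib]
    simp only [Finset.sum_ite_eq', ht, hS t ht, if_true]
    rw [← hc2, sub_zsmul, natCast_zsmul, natCast_zsmul, zsmul_neg, neg_nsmul]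
    abel

/-- For a near-symmetric set with at least two elements, the signed sumset is an ordinary sumset
of a symmetric set with one more element. -/
lemma near_eq {S : Finset G} {a : G} (hS : IsSymm S) (hne : S.Nonempty)
    (ha : a ∉ S) (ha' : -a ∉ S) (haa : -a ≠ a) (h : ℕ) :
    signedSumset h (insert a S) = ((h • (insert (-a) (insert a S)) : Finset G) : Set G) := by
  apply Set.Subset.antisymm
  · apply signed_subset
    intro b hb
    refine ⟨Finset.mem_insert_of_mem hb, ?_⟩
    rcases Finset.mem_insert.1 hb with rfl | hb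
    · exact Finset.mem_insert_self _ _
    · exact Finset.mem_insert_of_mem (Finset.mem_insert_of_mem (hS b hb))
  · exact nsmul_subset_signed_near hS hne ha ha' haa h

/-- Structure of near-symmetric sets. -/
lemma near_structure {A : Finset G} (hA : NearSymm A) :
    ∃ (a : G) (S : Finset G), A = insert a S ∧ a ∉ S ∧ -a ∉ S ∧ -a ≠ a ∧ IsSymm S := by
  obtain ⟨hns, a, ha, hs⟩ := hA
  refine ⟨a, A.erase a, (Finset.insert_erase ha).symm, Finset.notMem_erase _ _, ?_, ?_, hs⟩
  · intro hmem
    have := hs _ hmem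
    rw [neg_neg] at this
    exact Finset.notMem_erase _ _ this
  · intro haa
    apply hns
    intro b hb
    by_cases hba : b = a
    · rw [hba, haa]; exact ha
    · exact Finset.mem_of_mem_erase (hs b (Finset.mem_erase.2 ⟨hba, hb⟩))

/-! ### Finite groups -/

variable [Fintype G]

lemma ncard_signed_le {A X : Finset G} (hAX : A ⊆ X) (hX : IsSymm X) (h : ℕ) :
    (signedSumset h A).ncard ≤ (h • X).card := by
  rw [← Set.ncard_coe_finset]
  exact Set.ncard_le_ncard (signed_subset (fun a ha => ⟨hAX ha, hX a (hAX ha)⟩) h)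
    (Set.toFinite _)

lemma rhoPM_le {A : Finset G} {m : ℕ} (hA : A.card = m) (h : ℕ) :
    rhoPM G m h ≤ (signedSumset h A).ncard := Nat.sInf_le ⟨A, hA, rfl⟩

lemma rhoPM_le_of_symm {X : Finset G} (hX : IsSymm X) {m : ℕ} (hm : m ≤ X.card) (h : ℕ) :
    rhoPM G m h ≤ (h • X).card := by
  obtain ⟨A, hAX, hA⟩ := Finset.exists_subset_card_eq hm
  exact (rhoPM_le hA h).trans (ncard_signed_le hAX hX h)

/-- The information given by Kneser's theorem for the `h`-fold sumset. -/
lemma kneser_info {B : Finset G} (hB : B.Nonempty) {h : ℕ} (hh : 0 < h) :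
    ∃ (K : AddSubgroup G), ∀ _ : DecidableEq (G ⧸ K),
      let Y := B.image (QuotientAddGroup.mk : G → G ⧸ K)
      Nat.card K ∣ Fintype.card G ∧ B.card ≤ Y.card * Nat.card K ∧
      (h • B).card = (h • Y).card * Nat.card K ∧ stab (h • Y) = ⊥ := by
  refine ⟨stab (h • B), fun inst => ?_⟩
  intro Y
  have himg : ∀ j : ℕ, (j • B).image (QuotientAddGroup.mk : G → G ⧸ stab (h • B)) = j • Y := by
    intro j
    induction j with
    | zero =>
      rw [zero_nsmul, zero_nsmul]
      rfl
    | succ j ih => rw [succ_nsmul, succ_nsmul, image_add_quot, ih]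
  refine ⟨?_, ?_, ?_, ?_⟩
  · rw [← Nat.card_eq_fintype_card]
    exact AddSubgroup.card_addSubgroup_dvd_card _
  · -- B is contained in the union of the cosets
    have hper : Per (stab (h • B)) (Finset.univ.filter
        (fun x : G => (QuotientAddGroup.mk x : G ⧸ stab (h • B)) ∈ Y)) := by
      intro x hx c hc
      rw [Finset.mem_filter] at hc ⊢
      refine ⟨Finset.mem_univ _, ?_⟩
      rw [QuotientAddGroup.mk_add, (QuotientAddGroup.eq_zero_iff x).2 hx, add_zero]
      exact hc.2
    have h1 := card_eq_of_per hper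
    have h2 : B.card ≤ (Finset.univ.filter
        (fun x : G => (QuotientAddGroup.mk x : G ⧸ stab (h • B)) ∈ Y)).card := by
      apply Finset.card_le_card
      intro x hx
      rw [Finset.mem_filter]
      exact ⟨Finset.mem_univ _, Finset.mem_image_of_mem _ hx⟩
    have h3 : ((Finset.univ.filter
        (fun x : G => (QuotientAddGroup.mk x : G ⧸ stab (h • B)) ∈ Y)).image
        (QuotientAddGroup.mk : G → G ⧸ stab (h • B))).card ≤ Y.card := by
      apply Finset.card_le_card
      intro y hy
      obtain ⟨x, hx, rfl⟩ := Finset.mem_image.1 hy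
      exact (Finset.mem_filter.1 hx).2
    calc B.card ≤ _ := h2
      _ = _ := h1
      _ ≤ Nat.card (stab (h • B)) * Y.card := Nat.mul_le_mul_left _ h3
      _ = _ := mul_comm _ _
  · rw [← himg, mul_comm]
    exact card_eq_of_per (per_stab _)
  · rw [← himg]
    exact stab_image_quot

lemma u_le_card_nsmul {B : Finset G} (hB : B.Nonempty) {h : ℕ} (hh : 0 < h) :
    u (Fintype.card G) B.card h ≤ (h • B).card := by
  classical
  obtain ⟨K, hK⟩ := kneser_info hB hh
  obtain ⟨h1, h2, h3, h4⟩ := hK inferInstance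
  set Y := B.image (QuotientAddGroup.mk : G → G ⧸ K)
  have hd : 0 < Nat.card K := Nat.card_pos
  have h5 : h * (Y.card - 1) + 1 ≤ (h • Y).card := card_nsmul_ge (hB.image _) h4 le_rfl
  rw [h3]
  refine (u_le h1).trans ?_
  unfold fd
  apply Nat.mul_le_mul_right
  refine le_trans ?_ h5
  have := cdiv_le hd h2
  have := Nat.mul_le_mul_left h (Nat.sub_le_sub_right this 1)
  omega

lemma u_le_rhoPM {m h : ℕ} (hm : 0 < m) (hmn : m ≤ Fintype.card G) (hh : 0 < h) :
    u (Fintype.card G) m h ≤ rhoPM G m h := by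
  obtain ⟨A₀, _, hA₀⟩ := Finset.exists_subset_card_eq (s := (Finset.univ : Finset G)) (n := m)
    (by rw [Finset.card_univ]; exact hmn)
  have := Nat.sInf_mem (s := {t | ∃ A : Finset G, A.card = m ∧ t = (signedSumset h A).ncard})
    ⟨_, A₀, hA₀, rfl⟩
  obtain ⟨A, hA, hρ⟩ := this
  rw [rhoPM, hρ]
  have h1 : (h • A).card ≤ (signedSumset h A).ncard := by
    rw [← Set.ncard_coe_finset]
    exact Set.ncard_le_ncard (nsmul_subset_signed A h) (Set.toFinite _)
  refine le_trans ?_ h1
  rw [← hA]
  exact u_le_card_nsmul (Finset.card_pos.1 (by omega)) hh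

/-! ### Symmetric subsets -/

lemma exists_symm_even {X : Finset G} (hX : IsSymm X) (j : ℕ) (hj : 2 * j ≤ X.card) :
    ∃ B ⊆ X, IsSymm B ∧ B.card = 2 * j := by
  induction j with
  | zero => exact ⟨∅, Finset.empty_subset _, fun a ha => absurd ha (by simp), by simp⟩
  | succ j ih =>
    obtain ⟨B, hBX, hBs, hBc⟩ := ih (by omega)
    have hcard : 2 ≤ (X \ B).card := by
      rw [Finset.card_sdiff_of_subset hBX]; omega
    have hsym : ∀ x ∈ X \ B, -x ∈ X \ B := by
      intro x hx
      rw [Finset.mem_sdiff] at hx ⊢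
      refine ⟨hX x hx.1, fun hh => hx.2 ?_⟩
      simpa using hBs _ hh
    have hpair : ∀ x ∈ X \ B, -x ≠ x → ∃ B ⊆ X, IsSymm B ∧ B.card = 2 * (j + 1) := by
      intro x hx hxx
      have hx' := hsym x hx
      rw [Finset.mem_sdiff] at hx hx'
      refine ⟨insert x (insert (-x) B), ?_, ?_, ?_⟩
      · exact Finset.insert_subset hx.1 (Finset.insert_subset hx'.1 hBX)
      · intro y hy
        rw [Finset.mem_insert, Finset.mem_insert] at hy ⊢
        rcases hy with rfl | rfl | hy
        · simp
        · simp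
        · exact Or.inr (Or.inr (hBs y hy))
      · rw [Finset.card_insert_of_notMem, Finset.card_insert_of_notMem hx'.2, hBc]
        · ring
        · rw [Finset.mem_insert, not_or]
          exact ⟨fun hh => hxx hh.symm, hx.2⟩
    obtain ⟨x, hx⟩ : (X \ B).Nonempty := Finset.card_pos.1 (by omega)
    by_cases hxx : -x = x
    · obtain ⟨y, hy, hyx⟩ := Finset.exists_mem_ne (s := X \ B) (by omega) x
      by_cases hyy : -y = y
      · rw [Finset.mem_sdiff] at hx hy
        refine ⟨insert x (insert y B), ?_, ?_, ?_⟩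
        · exact Finset.insert_subset hx.1 (Finset.insert_subset hy.1 hBX)
        · intro z hz
          rw [Finset.mem_insert, Finset.mem_insert] at hz ⊢
          rcases hz with rfl | rfl | hz
          · exact Or.inl hxx
          · exact Or.inr (Or.inl hyy)
          · exact Or.inr (Or.inr (hBs z hz))
        · rw [Finset.card_insert_of_notMem, Finset.card_insert_of_notMem hy.2, hBc]
          · ring
          · rw [Finset.mem_insert, not_or]
            exact ⟨fun hh => hyx hh.symm, hx.2⟩
      · exact hpair y hy hyy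
    · exact hpair x hx hxx

lemma isSymm_erase {X : Finset G} (hX : IsSymm X) {x : G} (hx : -x = x) : IsSymm (X.erase x) := by
  intro y hy
  rw [Finset.mem_erase] at hy ⊢
  refine ⟨fun hh => hy.1 ?_, hX y hy.2⟩
  have h1 : y = -x := by rw [← hh, neg_neg]
  rw [h1, hx]

/-- Existence of near-symmetric subsets. -/
lemma exists_near {X : Finset G} (hX : IsSymm X) {a : G} (ha : a ∈ X) (haa : -a ≠ a) {m : ℕ}
    (hm : 0 < m) (hmX : m + 1 ≤ X.card) (hodd : Odd m ∨ ∃ x ∈ X, -x = x) :
    ∃ A ⊆ X, A.card = m ∧ NearSymm A := by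
  set X' := (X.erase a).erase (-a) with hX'
  have hX's : IsSymm X' := by
    intro y hy
    rw [hX', Finset.mem_erase, Finset.mem_erase] at hy ⊢
    refine ⟨fun hh => hy.2.1 (neg_injective hh), fun hh => hy.1 ?_, hX y hy.2.2⟩
    rw [← hh, neg_neg]
  have hX'c : X'.card + 2 = X.card := by
    rw [hX', Finset.card_erase_of_mem, Finset.card_erase_of_mem ha]
    · have : 0 < X.card := Finset.card_pos.2 ⟨a, ha⟩
      omega
    · rw [Finset.mem_erase]; exact ⟨haa, hX a ha⟩
  have hX'X : X' ⊆ X := (Finset.erase_subset _ _).trans (Finset.erase_subset _ _)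
  have hS : ∃ S ⊆ X', IsSymm S ∧ S.card + 1 = m := by
    rcases Nat.even_or_odd m with hev | hod
    · obtain ⟨x₀, hx₀, hx₀x⟩ := hodd.resolve_left (Nat.not_odd_iff_even.2 hev)
      have hx₀' : x₀ ∈ X' := by
        rw [hX', Finset.mem_erase, Finset.mem_erase]
        refine ⟨?_, ?_, hx₀⟩
        · rintro rfl
          rw [neg_neg] at hx₀x
          exact haa hx₀x.symm
        · rintro rfl
          exact haa hx₀x
      obtain ⟨j, hj⟩ := hev
      obtain ⟨B, hB1, hB2, hB3⟩ := exists_symm_even (isSymm_erase hX's hx₀x) (j - 1) (by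
        rw [Finset.card_erase_of_mem hx₀']; omega)
      refine ⟨insert x₀ B, ?_, ?_, ?_⟩
      · exact Finset.insert_subset hx₀' (hB1.trans (Finset.erase_subset _ _))
      · intro y hy
        rw [Finset.mem_insert] at hy ⊢
        rcases hy with rfl | hy
        · exact Or.inl hx₀x
        · exact Or.inr (hB2 y hy)
      · rw [Finset.card_insert_of_notMem (fun hh => Finset.notMem_erase _ _ (hB1 hh)), hB3]
        omega
    · obtain ⟨j, hj⟩ := hod
      obtain ⟨B, hB1, hB2, hB3⟩ := exists_symm_even hX's j (by omega)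
      exact ⟨B, hB1, hB2, by omega⟩
  obtain ⟨S, hSX, hSs, hSc⟩ := hS
  have haS : a ∉ S := by
    intro hh
    have := hSX hh
    rw [hX', Finset.mem_erase, Finset.mem_erase] at this
    exact this.2.1 rfl
  have haS' : -a ∉ S := by
    intro hh
    have := hSX hh
    rw [hX', Finset.mem_erase] at this
    exact this.1 rfl
  refine ⟨insert a S, Finset.insert_subset ha (hSX.trans hX'X), ?_, ?_, a,
    Finset.mem_insert_self _ _, ?_⟩
  · rw [Finset.card_insert_of_notMem haS]; exact hSc
  · intro hh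
    have := hh a (Finset.mem_insert_self _ _)
    rw [Finset.mem_insert] at this
    rcases this with h1 | h1
    · exact haa h1
    · exact haS' h1
  · rw [Finset.erase_insert haS]
    exact hSs

end SignedSum
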