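import Pool.Agent.Helper24.SignedSum.Basic

set_option linter.unusedSectionVars false
set_option linter.unusedVariables false

open scoped Pointwise
open Helper24.Kneser

namespace SignedSum

universe v

/-! ### Subgroups of finite abelian groups -/

lemma card_comap_mk {G : Type v} [AddCommGroup G] [Finite G] (H : AddSubgroup G)
    (K' : AddSubgroup (G ⧸ H)) :
    Nat.card (K'.comap (QuotientAddGroup.mk' H)) = Nat.card H * Nat.card K' := by
  have h1 : (K'.comap (QuotientAddGroup.mk' H)).index = K'.index :=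
    AddSubgroup.index_comap_of_surjective K' (QuotientAddGroup.mk'_surjective H)
  have h2 := (K'.comap (QuotientAddGroup.mk' H)).card_mul_index
  have h3 := K'.card_mul_index
  have h4 := AddSubgroup.card_eq_card_quotient_mul_card_addSubgroup H
  have h5 : 0 < K'.index := Nat.pos_of_ne_zero AddSubgroup.index_ne_zero_of_finite
  rw [h1] at h2
  apply Nat.eq_of_mul_eq_mul_right h5
  rw [h2, h4, ← h3]
  ring

lemma exists_addSubgroup_card (n : ℕ) : ∀ (G : Type v) [AddCommGroup G] [Finite G],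
    Nat.card G = n → ∀ d, d ∣ n → ∃ K : AddSubgroup G, Nat.card K = d := by
  induction n using Nat.strong_induction_on with
  | _ n ih =>
  intro G _ _ hG d hd
  have hn : 0 < n := hG ▸ Nat.card_pos
  have hd0 : 0 < d := Nat.pos_of_dvd_of_pos hd hn
  by_cases hd1 : d = 1
  · exact ⟨⊥, by rw [hd1]; exact AddSubgroup.card_bot⟩
  have hp := Nat.minFac_prime hd1
  have hpd := Nat.minFac_dvd d
  set p := d.minFac
  have : Fact p.Prime := ⟨hp⟩
  obtain ⟨x, hx⟩ := exists_prime_addOrderOf_dvd_card' (G := G) p (by rw [hG]; exact hpd.trans hd)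
  set H := AddSubgroup.zmultiples x with hH
  have hHc : Nat.card H = p := by rw [hH, Nat.card_zmultiples, hx]
  have h4 := AddSubgroup.card_eq_card_quotient_mul_card_addSubgroup H
  rw [hG, hHc] at h4
  obtain ⟨e, he⟩ := hpd
  have hqpos : 0 < Nat.card (G ⧸ H) := Nat.card_pos
  have hlt : Nat.card (G ⧸ H) < n := by
    rw [h4]
    exact (Nat.lt_mul_iff_one_lt_right hqpos).2 hp.one_lt
  have hdvd : e ∣ Nat.card (G ⧸ H) := by
    apply Nat.dvd_of_mul_dvd_mul_left hp.pos
    rw [← he, mul_comm p, ← h4]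
    exact hd
  obtain ⟨K', hK'⟩ := ih _ hlt (G ⧸ H) rfl e hdvd
  exact ⟨K'.comap (QuotientAddGroup.mk' H), by rw [card_comap_mk, hHc, hK', ← he]⟩

variable {G : Type*} [AddCommGroup G] [DecidableEq G] [Fintype G]

/-- A subgroup as a finset. -/
noncomputable def subF (K : AddSubgroup G) : Finset G := by
  classical exact Finset.univ.filter (fun x => x ∈ K)

lemma mem_subF {K : AddSubgroup G} {x : G} : x ∈ subF K ↔ x ∈ K := by
  classical
  simp [subF]

lemma card_subF (K : AddSubgroup G) : (subF K).card = Nat.card K := by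
  classical
  rw [Nat.card_eq_fintype_card, Fintype.card_subtype]
  congr 1

lemma subF_symm (K : AddSubgroup G) : IsSymm (subF K) := by
  intro x hx
  rw [mem_subF] at hx ⊢
  exact K.neg_mem hx

lemma nsmul_subF (K : AddSubgroup G) (h : ℕ) : h • subF K ⊆ subF K := by
  induction h with
  | zero =>
    intro x hx
    rw [zero_nsmul, Finset.mem_zero] at hx
    rw [mem_subF, hx]; exact K.zero_mem
  | succ h ih =>
    intro x hx
    rw [succ_nsmul] at hx
    obtain ⟨y, hy, z, hz, rfl⟩ := Finset.mem_add.1 hx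
    have := ih hy
    rw [mem_subF] at this hz ⊢
    exact K.add_mem this hz

lemma card_nsmul_subF_le (K : AddSubgroup G) (h : ℕ) : (h • subF K).card ≤ Nat.card K := by
  rw [← card_subF]
  exact Finset.card_le_card (nsmul_subF K h)

/-! ### Unions of cosets -/

section lift

variable (K : AddSubgroup G) [DecidableEq (G ⧸ K)]

/-- The union of a set of cosets. -/
def lift (Z : Finset (G ⧸ K)) : Finset G :=
  Finset.univ.filter (fun x => (QuotientAddGroup.mk x : G ⧸ K) ∈ Z)

variable {K}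

lemma mem_lift {Z : Finset (G ⧸ K)} {x : G} :
    x ∈ lift K Z ↔ (QuotientAddGroup.mk x : G ⧸ K) ∈ Z := by
  simp [lift]

lemma card_lift (Z : Finset (G ⧸ K)) : (lift K Z).card = Nat.card K * Z.card := by
  have hper : Per K (lift K Z) := by
    intro x hx c hc
    rw [mem_lift] at hc ⊢
    rw [QuotientAddGroup.mk_add, (QuotientAddGroup.eq_zero_iff x).2 hx, add_zero]
    exact hc
  rw [card_eq_of_per hper]
  congr 2
  ext y
  rw [Finset.mem_image]
  constructor
  · rintro ⟨x, hx, rfl⟩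
    exact mem_lift.1 hx
  · intro hy
    obtain ⟨x, rfl⟩ := QuotientAddGroup.mk_surjective y
    exact ⟨x, mem_lift.2 hy, rfl⟩

lemma lift_symm {Z : Finset (G ⧸ K)} (hZ : IsSymm Z) : IsSymm (lift K Z) := by
  intro x hx
  rw [mem_lift] at hx ⊢
  exact hZ _ hx

lemma nsmul_lift (Z : Finset (G ⧸ K)) (h : ℕ) : h • lift K Z ⊆ lift K (h • Z) := by
  induction h with
  | zero =>
    intro x hx
    rw [zero_nsmul, Finset.mem_zero] at hx
    rw [mem_lift, hx, zero_nsmul]
    exact Finset.mem_zero.2 rfl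
  | succ h ih =>
    intro x hx
    rw [succ_nsmul] at hx
    obtain ⟨y, hy, z, hz, rfl⟩ := Finset.mem_add.1 hx
    have h1 := ih hy
    rw [mem_lift] at h1 hz ⊢
    rw [succ_nsmul, QuotientAddGroup.mk_add]
    exact Finset.add_mem_add h1 hz

lemma card_nsmul_lift_le (Z : Finset (G ⧸ K)) (h : ℕ) :
    (h • lift K Z).card ≤ Nat.card K * (h • Z).card := by
  rw [← card_lift]
  exact Finset.card_le_card (nsmul_lift Z h)

end lift

/-! ### Symmetric arithmetic progressions -/

section ap

variable {Q : Type*} [AddCommGroup Q] [DecidableEq Q]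

/-- The symmetric progression `-(k-1) δ, -(k-3) δ, …, (k-1) δ`. -/
def ap (δ : Q) (k : ℕ) : Finset Q :=
  (Finset.range k).image (fun i : ℕ => (2 * (i : ℤ) - ((k - 1 : ℕ) : ℤ)) • δ)

lemma mem_ap {δ : Q} {k : ℕ} {y : Q} :
    y ∈ ap δ k ↔ ∃ i < k, (2 * (i : ℤ) - ((k - 1 : ℕ) : ℤ)) • δ = y := by
  simp [ap]

lemma ap_symm (δ : Q) (k : ℕ) : IsSymm (ap δ k) := by
  intro y hy
  rw [mem_ap] at hy ⊢
  obtain ⟨i, hi, rfl⟩ := hy
  refine ⟨k - 1 - i, by omega, ?_⟩
  rw [← neg_zsmul]
  congr 1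
  omega

lemma card_ap {δ : Q} {k : ℕ} (hk : 2 * (k - 1) < addOrderOf δ) : (ap δ k).card = k := by
  rw [ap, Finset.card_image_of_injOn, Finset.card_range]
  intro i hi j hj hij
  simp only [Finset.coe_range, Set.mem_Iio] at hi hj
  have h1 : ((2 * (i : ℤ) - ((k - 1 : ℕ) : ℤ)) - (2 * (j : ℤ) - ((k - 1 : ℕ) : ℤ))) • δ = 0 := by
    rw [sub_zsmul, ← sub_eq_add_neg]; exact sub_eq_zero.2 hij
  have h2 := addOrderOf_dvd_iff_zsmul_eq_zero.2 h1
  have h3 := Int.eq_zero_of_abs_lt_dvd h2 (by
    rw [abs_lt]; constructor <;> omega)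
  omega

lemma nsmul_ap (δ : Q) (k : ℕ) (hk : 0 < k) (h : ℕ) :
    (h • ap δ k).card ≤ h * (k - 1) + 1 := by
  have hsub : h • ap δ k ⊆ (Finset.range (h * (k - 1) + 1)).image
      (fun i : ℕ => (2 * (i : ℤ) - ((h * (k - 1) : ℕ) : ℤ)) • δ) := by
    induction h with
    | zero =>
      intro x hx
      rw [zero_nsmul, Finset.mem_zero] at hx
      simp [hx]
    | succ h ih =>
      intro x hx
      rw [succ_nsmul] at hx
      obtain ⟨y, hy, z, hz, rfl⟩ := Finset.mem_add.1 hx
      have h1 := ih hy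
      rw [Finset.mem_image] at h1
      obtain ⟨i, hi, rfl⟩ := h1
      obtain ⟨j, hj, rfl⟩ := mem_ap.1 hz
      rw [Finset.mem_range] at hi
      rw [Finset.mem_image]
      refine ⟨i + j, ?_, ?_⟩
      · rw [Finset.mem_range, add_mul, one_mul]; omega
      · rw [← add_zsmul, add_mul h 1, one_mul]
        congr 1
        push_cast
        ring
  calc (h • ap δ k).card ≤ _ := Finset.card_le_card hsub
    _ ≤ _ := Finset.card_image_le
    _ = _ := Finset.card_range _

lemma top_mem_ap (δ : Q) {k : ℕ} (hk : 0 < k) : (((k - 1 : ℕ) : ℤ)) • δ ∈ ap δ k := by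
  rw [mem_ap]
  refine ⟨k - 1, by omega, ?_⟩
  congr 1
  ring

lemma zero_mem_ap (δ : Q) {k : ℕ} (hk : Odd k) : (0 : Q) ∈ ap δ k := by
  obtain ⟨j, rfl⟩ := hk
  rw [mem_ap]
  refine ⟨j, by omega, ?_⟩
  have : 2 * (j : ℤ) - ((2 * j + 1 - 1 : ℕ) : ℤ) = 0 := by push_cast; omega
  rw [this, zero_zsmul]

lemma top_ne {δ : Q} {k : ℕ} (hk : 2 ≤ k) (ho : 2 * (k - 1) < addOrderOf δ) :
    -((((k - 1 : ℕ) : ℤ)) • δ) ≠ (((k - 1 : ℕ) : ℤ)) • δ := by
  intro h
  have h1 : (2 * ((k - 1 : ℕ) : ℤ)) • δ = 0 := by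
    rw [two_mul, add_zsmul]
    nth_rewrite 1 [← h]
    simp
  have h2 := addOrderOf_dvd_iff_zsmul_eq_zero.2 h1
  have h3 := Int.eq_zero_of_abs_lt_dvd h2 (by rw [abs_lt]; constructor <;> omega)
  omega

end ap

/-! ### Parity of symmetric sets -/

section parity

variable {Q : Type*} [AddCommGroup Q] [DecidableEq Q]

lemma even_of_symm {Z : Finset Q} (hZ : IsSymm Z) (hno : ∀ z ∈ Z, -z ≠ z) : Even Z.card := by
  have h := Finset.sum_involution (s := Z) (f := fun _ => (1 : ZMod 2)) (fun a _ => -a)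
    (fun a _ => by decide) (fun a ha _ => hno a ha) (fun a ha => hZ a ha)
    (fun a _ => neg_neg a)
  rw [Finset.sum_const, nsmul_eq_mul, mul_one] at h
  exact (ZMod.natCast_eq_zero_iff_even).1 h

lemma parity_symm {Z : Finset Q} (hZ : IsSymm Z) :
    Even Z.card ↔ Even (Z.filter (fun z => -z = z)).card := by
  have h1 : Even (Z.filter (fun z => ¬ -z = z)).card := by
    apply even_of_symm
    · intro z hz
      rw [Finset.mem_filter] at hz ⊢
      exact ⟨hZ z hz.1, fun h => hz.2 (neg_injective h)⟩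
    · intro z hz
      exact (Finset.mem_filter.1 hz).2
  have h2 := Finset.card_filter_add_card_filter_not (s := Z) (fun z => -z = z)
  rw [← h2, Nat.even_add]
  simp [h1]

lemma nsmul_symm {Y : Finset Q} (hY : IsSymm Y) (j : ℕ) : IsSymm (j • Y) := by
  induction j with
  | zero =>
    intro x hx
    rw [zero_nsmul, Finset.mem_zero] at hx ⊢
    rw [hx, neg_zero]
  | succ j ih =>
    intro x hx
    rw [succ_nsmul] at hx ⊢
    obtain ⟨y, hy, z, hz, rfl⟩ := Finset.mem_add.1 hx
    rw [neg_add]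
    exact Finset.add_mem_add (ih y hy) (hY z hz)

lemma subset_nsmul {Y : Finset Q} (h0 : (0 : Q) ∈ Y) {j : ℕ} (hj : 0 < j) : Y ⊆ j • Y := by
  obtain ⟨j, rfl⟩ := Nat.exists_eq_succ_of_ne_zero hj.ne'
  intro y hy
  rw [Nat.succ_eq_add_one, succ_nsmul]
  have h1 : (0 : Q) ∈ j • Y := by
    have := Finset.nsmul_mem_nsmul (n := j) h0
    simpa using this
  have := Finset.add_mem_add h1 hy
  simpa using this

/-- In a group with at most one involution: if a symmetric set of even size contains an element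
equal to its own negative, then its sumsets have even size. -/
lemma parity_main [Fintype Q] (h2 : (Finset.univ.filter (fun x : Q => -x = x)).card ≤ 2)
    {Y : Finset Q} (hY : IsSymm Y) (hev : Even Y.card) {y₀ : Q} (hy₀ : y₀ ∈ Y) (hyy : -y₀ = y₀)
    {j : ℕ} (hj : 0 < j) : Even (j • Y).card := by
  have h3 := (parity_symm hY).1 hev
  have h4 : 0 < (Y.filter (fun z => -z = z)).card :=
    Finset.card_pos.2 ⟨y₀, Finset.mem_filter.2 ⟨hy₀, hyy⟩⟩
  have h5 : (Y.filter (fun z => -z = z)) ⊆ Finset.univ.filter (fun x : Q => -x = x) := by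
    intro x hx
    rw [Finset.mem_filter] at hx ⊢
    exact ⟨Finset.mem_univ _, hx.2⟩
  have h6 := Finset.card_le_card h5
  have h7 : (Y.filter (fun z => -z = z)).card = 2 := by
    obtain ⟨r, hr⟩ := h3
    omega
  have h8 : (Y.filter (fun z => -z = z)) = Finset.univ.filter (fun x : Q => -x = x) :=
    Finset.eq_of_subset_of_card_le h5 (by omega)
  have h0 : (0 : Q) ∈ Y := by
    have : (0 : Q) ∈ Finset.univ.filter (fun x : Q => -x = x) := by simp
    rw [← h8] at this
    exact (Finset.mem_filter.1 this).1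
  rw [parity_symm (nsmul_symm hY j)]
  have h9 : ((j • Y).filter (fun z => -z = z)) = Finset.univ.filter (fun x : Q => -x = x) := by
    apply Finset.Subset.antisymm
    · intro x hx
      rw [Finset.mem_filter] at hx ⊢
      exact ⟨Finset.mem_univ _, hx.2⟩
    · rw [← h8]
      intro x hx
      rw [Finset.mem_filter] at hx ⊢
      exact ⟨subset_nsmul h0 hj hx.1, hx.2⟩
  rw [h9, ← h8, h7]
  exact even_two

end parity

end SignedSum
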