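import Pool.Agent.Helper24.SignedSum.Main

set_option linter.unusedSectionVars false
set_option linter.unusedVariables false

open scoped Pointwise
open Helper24.Kneser

namespace SignedSum

/-! ### Involutions in quotients -/

section inv

variable {G : Type*} [AddCommGroup G] [Finite G]

/-- Doubling as a homomorphism. -/
def dbl (G : Type*) [AddCommGroup G] : G →+ G := AddMonoidHom.id G + AddMonoidHom.id G

lemma index_range_dbl : (dbl G).range.index = {x : G | -x = x}.ncard := by
  have h1 := (dbl G).range.card_mul_index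
  have h2 := (dbl G).ker.card_mul_index
  rw [AddSubgroup.index_ker] at h2
  have h3 : 0 < Nat.card (dbl G).range := Nat.card_pos
  have h4 : (dbl G).range.index = Nat.card (dbl G).ker := by
    apply Nat.eq_of_mul_eq_mul_left h3
    rw [h1, ← h2, mul_comm]
  rw [h4, ← Nat.card_coe_set_eq]
  apply Nat.card_congr
  apply Equiv.subtypeEquivRight
  intro x
  show x + x = 0 ↔ -x = x
  constructor
  · intro h; exact neg_eq_of_add_eq_zero_left h
  · intro h
    nth_rewrite 1 [← h]
    simp

lemma inv_quot_le (K : AddSubgroup G) : {x : G ⧸ K | -x = x}.ncard ≤ {x : G | -x = x}.ncard := by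
  rw [← index_range_dbl, ← index_range_dbl]
  rw [← AddSubgroup.index_comap_of_surjective (dbl (G ⧸ K)).range
    (QuotientAddGroup.mk'_surjective K)]
  have hle : (dbl G).range ≤ (dbl (G ⧸ K)).range.comap (QuotientAddGroup.mk' K) := by
    rintro x ⟨y, rfl⟩
    exact ⟨QuotientAddGroup.mk y, rfl⟩
  exact Nat.le_of_dvd (Nat.pos_of_ne_zero AddSubgroup.index_ne_zero_of_finite)
    (AddSubgroup.index_dvd_of_le hle)

end inv

section thms

variable {G : Type*} [AddCommGroup G] [DecidableEq G] [Fintype G]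

lemma cyclic_inv [IsAddCyclic G] : {x : G | -x = x}.ncard ≤ 2 := by
  have h := IsAddCyclic.card_nsmul_eq_zero_le (α := G) (n := 2) (by norm_num)
  have h2 : {x : G | -x = x} = ((Finset.univ.filter (fun a : G => 2 • a = 0) : Finset G) : Set G) := by
    ext x
    simp only [Set.mem_ofPred_eq, Finset.coe_filter, Finset.mem_univ, true_and, two_nsmul]
    constructor
    · intro h
      nth_rewrite 1 [← h]
      simp
    · intro h; exact neg_eq_of_add_eq_zero_left h
  rw [h2, Set.ncard_coe_finset]
  exact h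

lemma exists_symm_card {m : ℕ} (hm : m ≤ Fintype.card G) :
    ∃ X : Finset G, IsSymm X ∧ X.card = m := by
  have huniv : IsSymm (Finset.univ : Finset G) := fun a _ => Finset.mem_univ _
  rcases Nat.even_or_odd m with ⟨j, hj⟩ | ⟨j, hj⟩
  · obtain ⟨B, -, h2, h3⟩ := exists_symm_even huniv j (by rw [Finset.card_univ]; omega)
    exact ⟨B, h2, by omega⟩
  · obtain ⟨B, h1, h2, h3⟩ := exists_symm_even (isSymm_erase huniv (neg_zero : -(0 : G) = 0)) j (by
      rw [Finset.card_erase_of_mem (Finset.mem_univ _), Finset.card_univ]; omega)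
    refine ⟨insert 0 B, ?_, ?_⟩
    · intro y hy
      rw [Finset.mem_insert] at hy ⊢
      rcases hy with rfl | hy
      · exact Or.inl neg_zero
      · exact Or.inr (h2 y hy)
    · rw [Finset.card_insert_of_notMem (fun hh => Finset.notMem_erase _ _ (h1 hh)), h3]
      omega

lemma not_attains_one {m : ℕ} (hm2 : 2 ≤ m) (hmn : m ≤ Fintype.card G) :
    ¬ NearSymmAttains G m 1 := by
  rintro ⟨A, hAc, hA, hAr⟩
  obtain ⟨X, hX, hXc⟩ := exists_symm_card hmn
  have h1 := rhoPM_le_of_symm hX hXc.ge 1
  rw [one_nsmul, hXc, ← hAr] at h1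
  obtain ⟨a, S, rfl, haS, haS', haa, hS⟩ := near_structure hA
  have hSc : S.card + 1 = m := by rw [← hAc, Finset.card_insert_of_notMem haS]
  have hSne : S.Nonempty := Finset.card_pos.1 (by omega)
  rw [near_eq hS hSne haS haS' haa, Set.ncard_coe_finset, one_nsmul,
    Finset.card_insert_of_notMem, hAc] at h1
  · omega
  · rw [Finset.mem_insert, not_or]; exact ⟨haa, haS'⟩

/-- Necessary condition for groups with at most one involution. -/
theorem necessary_of_inv (hinv : {x : G | -x = x}.ncard ≤ 2) {m h : ℕ} (hm2 : 2 ≤ m)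
    (hh : 0 < h) (hρ : rhoPM G m h = u (Fintype.card G) m h) (hN : NearSymmAttains G m h) :
    ∃ d, d ∣ Fintype.card G ∧ fd m h d = u (Fintype.card G) m h ∧ ¬ d ∣ m ∧
      (Odd m ∨ Odd (cdiv m d)) := by
  obtain ⟨A, hAc, hA, hAr⟩ := hN
  exact near_parity hA hAc hm2 hh (by rw [hAr, hρ]) (fun K => (inv_quot_le K).trans hinv)

lemma cyclic_order [IsAddCyclic G] (K : AddSubgroup G) :
    ∃ δ : G ⧸ K, addOrderOf δ * Nat.card K = Fintype.card G := by
  obtain ⟨g, hg⟩ := IsAddCyclic.exists_generator (α := G)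
  refine ⟨QuotientAddGroup.mk g, ?_⟩
  have : addOrderOf (QuotientAddGroup.mk g : G ⧸ K) = Nat.card (G ⧸ K) := by
    apply addOrderOf_eq_card_of_forall_mem_zmultiples
    intro x
    obtain ⟨y, rfl⟩ := QuotientAddGroup.mk_surjective x
    obtain ⟨z, rfl⟩ := hg y
    exact ⟨z, rfl⟩
  rw [this, ← Nat.card_eq_fintype_card]
  exact (AddSubgroup.card_eq_card_quotient_mul_card_addSubgroup K).symm

lemma ap_bound {n m h d o : ℕ} (hd : 0 < d) (hm : 0 < m) (hmn : m ≤ n) (hh2 : 2 ≤ h)
    (ho : o * d = n) (hfd : fd m h d = u n m h) : 2 * (cdiv m d - 1) < o := by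
  have h1 := u_le_self (h := h) hm hmn
  rw [← hfd, ← ho, fd] at h1
  have h2 := Nat.le_of_mul_le_mul_right h1 hd
  have h3 := Nat.mul_le_mul_right (cdiv m d - 1) hh2
  omega

/-- The complete answer for cyclic groups. -/
theorem cyclic_iff [IsAddCyclic G] {m h : ℕ} (hm2 : 2 ≤ m) (hmn : m ≤ Fintype.card G)
    (hh : 1 ≤ h) :
    NearSymmAttains G m h ↔ ∃ d, d ∣ Fintype.card G ∧ fd m h d = u (Fintype.card G) m h ∧
      ¬ d ∣ m ∧ (Odd m ∨ Odd (cdiv m d)) := by
  have hn : 0 < Fintype.card G := by omega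
  rcases Nat.lt_or_ge h 2 with hlt | hh2
  · have : h = 1 := by omega
    subst this
    constructor
    · intro hN; exact absurd hN (not_attains_one hm2 hmn)
    · rintro ⟨d, hd, hfd, hdm, -⟩
      exact absurd (not_fd_one (Nat.pos_of_dvd_of_pos hd hn) (by omega) hfd) hdm
  constructor
  · intro hN
    refine necessary_of_inv cyclic_inv hm2 hh (le_antisymm ?_ (u_le_rhoPM (by omega) hmn hh)) hN
    obtain ⟨d, hd, hud⟩ := exists_u (Fintype.card G) m h
    obtain ⟨K, hK⟩ := exists_addSubgroup_card _ G rfl d (by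
      rw [Nat.card_eq_fintype_card]; exact hd)
    obtain ⟨δ, hδ⟩ := cyclic_order K
    rw [hud, ← hK]
    apply rhoPM_le_fd (by omega)
    right
    refine ⟨δ, ap_bound Nat.card_pos (by omega) hmn hh2 hδ ?_⟩
    rw [hK, hud]
  · rintro ⟨d, hd, hfd, hdm, hpar⟩
    obtain ⟨K, hK⟩ := exists_addSubgroup_card _ G rfl d (by
      rw [Nat.card_eq_fintype_card]; exact hd)
    subst hK
    have hKpos : 0 < Nat.card K := Nat.card_pos
    refine near_sufficient hm2 hh hmn ?_ hdm hpar ?_
    · rw [hfd]; exact u_le_rhoPM (by omega) hmn hh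
    · have hc := cdiv_pos (m := m) hKpos (by omega)
      rcases Nat.lt_or_ge (cdiv m (Nat.card K)) 2 with h1 | h1
      · left
        refine ⟨by omega, ?_⟩
        by_contra hno
        push Not at hno
        have h2 : (K : Set G) ⊆ {x : G | -x = x} := fun x hx => hno x hx
        have h3 := Set.ncard_le_ncard h2 (Set.toFinite _)
        have h4 : (K : Set G).ncard = Nat.card K := Nat.card_coe_set_eq _
        have h5 := cyclic_inv (G := G)
        have h6 := le_cdiv_mul m hKpos
        have h7 : cdiv m (Nat.card K) = 1 := by omega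
        rw [h7, one_mul] at h6
        apply hdm
        have : Nat.card K = m := by omega
        rw [this]
      · right
        obtain ⟨δ, hδ⟩ := cyclic_order K
        exact ⟨h1, δ, ap_bound Nat.card_pos (by omega) hmn hh2 hδ hfd⟩

/-! ### The case `u = D` -/

lemma leastDiv_spec {n m : ℕ} (hmn : m ≤ n) : leastDiv n m ∣ n ∧ m ≤ leastDiv n m :=
  Nat.sInf_mem (s := {d | d ∣ n ∧ m ≤ d}) ⟨n, dvd_rfl, hmn⟩

lemma leastDiv_le {n m d : ℕ} (hd : d ∣ n) (hm : m ≤ d) : leastDiv n m ≤ d :=
  Nat.sInf_le ⟨hd, hm⟩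

lemma fd_of_le {m h d : ℕ} (hm : 0 < m) (hmd : m ≤ d) : fd m h d = d := by
  rw [fd, cdiv_eq_one hm hmd]; simp

lemma two_nsmul_of_pow (hno : ∀ x : G, addOrderOf x ≠ 4) (s : ℕ) :
    ∀ z : G, 2 ^ s • z = 0 → 2 • z = 0 := by
  induction s with
  | zero => intro z hz; simp at hz; simp [hz]
  | succ s ih =>
    intro z hz
    rcases Nat.eq_zero_or_pos s with rfl | hs
    · simpa using hz
    by_cases hz' : 2 ^ s • z = 0
    · exact ih z hz'
    exfalso
    obtain ⟨t, rfl⟩ := Nat.exists_eq_succ_of_ne_zero hs.ne'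
    apply hno (2 ^ t • z)
    have := addOrderOf_eq_prime_pow (p := 2) (n := 1) (x := 2 ^ t • z) (by
      intro h
      apply hz'
      rw [← h, ← mul_nsmul]
      rfl) (by
      rw [← hz, ← mul_nsmul]
      congr 1
      rw [Nat.succ_eq_add_one]
      ring)
    simpa using this

lemma arith_pow {h k i : ℕ} (hh : 2 ≤ h) (hk : 2 ≤ k) (he : h * (k - 1) + 1 = 2 ^ i) :
    1 ≤ i ∧ k ≤ 2 ^ (i - 1) := by
  have hi : i ≠ 0 := by
    rintro rfl
    have : 1 ≤ h * (k - 1) := Nat.mul_pos (by omega) (by omega)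
    simp at he
    omega
  obtain ⟨j, rfl⟩ := Nat.exists_eq_succ_of_ne_zero hi
  refine ⟨by omega, ?_⟩
  rw [Nat.succ_sub_one]
  rw [pow_succ] at he
  have hh3 : 3 ≤ h := by
    by_contra hlt
    have : h = 2 := by omega
    subst this
    omega
  have h1 := Nat.mul_le_mul_right (k - 1) hh3
  have h2 : 2 ≤ 2 ^ j := by
    have : 3 * 1 ≤ 3 * (k - 1) := by omega
    omega
  omega

/-- The complete answer when `u(n, m, h)` is the least divisor of `n` that is at least `m`. -/
theorem leastDiv_iff {m h : ℕ} (hm2 : 2 ≤ m) (hmn : m ≤ Fintype.card G) (hh : 1 ≤ h)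
    (hu : u (Fintype.card G) m h = leastDiv (Fintype.card G) m) :
    NearSymmAttains G m h ↔ ¬ m ∣ Fintype.card G ∧
      ((∃ x : G, addOrderOf x = 4) ∨ ∀ s, leastDiv (Fintype.card G) m ≠ 2 ^ s) := by
  have hn : 0 < Fintype.card G := by omega
  obtain ⟨hD1, hD2⟩ := leastDiv_spec hmn
  set D := leastDiv (Fintype.card G) m with hD
  obtain ⟨K₀, hK₀⟩ := exists_addSubgroup_card _ G rfl D (by
    rw [Nat.card_eq_fintype_card]; exact hD1)
  constructor
  · rintro ⟨A, hAc, hA, hAr⟩
    have hρ : rhoPM G m h ≤ D := by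
      rw [← hK₀]
      refine (rhoPM_le_of_symm (subF_symm K₀) ?_ h).trans (card_nsmul_subF_le K₀ h)
      rw [card_subF, hK₀]; exact hD2
    obtain ⟨B, K, hBs, hBc, ⟨a, haB, haa⟩, h1, h2, h3, h4⟩ :=
      near_info hA hAc hm2 hh (by rw [hAr, hu]; exact hρ)
    have hd : 0 < Nat.card K := Nat.card_pos
    have hc := cdiv_pos (m := m) hd (by omega)
    refine ⟨?_, ?_⟩
    · intro hdvd
      have hDm : D = m := le_antisymm (leastDiv_le hdvd le_rfl) hD2
      rw [hu, hDm] at h2
      apply h3
      rw [dvd_iff_cdiv hd (by omega)]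
      apply le_antisymm _ (le_cdiv_mul m hd)
      have h5 : cdiv m (Nat.card K) * Nat.card K ≤ fd m h (Nat.card K) := by
        rw [fd]
        apply Nat.mul_le_mul_right
        have := Nat.mul_le_mul_right (cdiv m (Nat.card K) - 1) hh
        omega
      rw [h2] at h5
      exact h5
    · by_contra hcon
      rw [not_or] at hcon
      push Not at hcon
      obtain ⟨hno, s, hs⟩ := hcon
      have h2' : (h * (cdiv m (Nat.card K) - 1) + 1) * Nat.card K = 2 ^ s := by
        rw [← hs, ← hu, ← h2]; rfl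
      obtain ⟨j, hj, hKj⟩ := (Nat.dvd_prime_pow Nat.prime_two).1 (Dvd.intro_left _ h2')
      rcases Nat.lt_or_ge (cdiv m (Nat.card K)) 2 with hk | hk
      · -- one coset
        let i0 : DecidableEq (G ⧸ K) := Classical.decEq _
        obtain ⟨h5, -, -⟩ := h4 i0
        have h6 : cdiv m (Nat.card K) = 1 := by omega
        rw [h6, Finset.card_eq_one] at h5
        obtain ⟨y, hy⟩ := h5
        have e1 : (QuotientAddGroup.mk a : G ⧸ K) = y := by
          have := Finset.mem_image_of_mem (QuotientAddGroup.mk : G → G ⧸ K) haB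
          rw [hy] at this
          exact Finset.mem_singleton.1 this
        have e2 : (QuotientAddGroup.mk (-a) : G ⧸ K) = y := by
          have := Finset.mem_image_of_mem (QuotientAddGroup.mk : G → G ⧸ K) (hBs a haB)
          rw [hy] at this
          exact Finset.mem_singleton.1 this
        have e3 : a + a ∈ K := by
          have := QuotientAddGroup.eq.1 (e2.trans e1.symm)
          simpa using this
        have e4 : 2 ^ (j + 1) • a = 0 := by
          have : (Nat.card K) • (⟨a + a, e3⟩ : K) = 0 := card_nsmul_eq_zero'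
          have h8 := congrArg Subtype.val this
          simp only [AddSubgroup.coe_nsmul, ZeroMemClass.coe_zero] at h8
          rw [hKj, ← two_nsmul, ← mul_nsmul, mul_comm, ← pow_succ] at h8
          exact h8
        have e5 := two_nsmul_of_pow hno _ _ e4
        rw [two_nsmul] at e5
        exact haa (neg_eq_of_add_eq_zero_left e5)
      · -- at least two cosets
        have hh2 : 2 ≤ h := by
          by_contra hlt
          have : h = 1 := by omega
          subst this
          exact h3 (not_fd_one hd (by omega) h2)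
        obtain ⟨i, hi⟩ : ∃ i, h * (cdiv m (Nat.card K) - 1) + 1 = 2 ^ i := by
          obtain ⟨i, _, hi⟩ := (Nat.dvd_prime_pow Nat.prime_two).1 (Dvd.intro _ h2')
          exact ⟨i, hi⟩
        obtain ⟨hi1, hk2⟩ := arith_pow hh2 hk hi
        have hmle : m ≤ 2 ^ (i - 1 + j) := by
          rw [pow_add, ← hKj]
          exact (le_cdiv_mul m hd).trans (Nat.mul_le_mul_right _ hk2)
        have hsij : s = i + j := by
          rw [hi, hKj, ← pow_add] at h2'
          exact (Nat.pow_right_injective le_rfl h2').symm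
        have hle : D ≤ 2 ^ (i - 1 + j) := by
          apply leastDiv_le _ hmle
          refine dvd_trans (pow_dvd_pow 2 (by omega : i - 1 + j ≤ s)) ?_
          rw [← hs]; exact hD1
        rw [hs] at hle
        have := (Nat.pow_le_pow_iff_right (by norm_num : 1 < 2)).1 hle
        omega
  · rintro ⟨hmn', hor⟩
    have hDm : m < D := lt_of_le_of_ne hD2 (fun h => hmn' (h ▸ hD1))
    obtain ⟨K, hK, a, haK, haa⟩ : ∃ K : AddSubgroup G, Nat.card K = D ∧ ∃ a ∈ K, -a ≠ a := by
      by_cases hs : ∃ s, D = 2 ^ s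
      · obtain ⟨s, hs⟩ := hs
        obtain ⟨x, hx⟩ := hor.resolve_right (fun h => h s hs)
        set H := AddSubgroup.zmultiples x with hH
        have hHc : Nat.card H = 4 := by rw [hH, Nat.card_zmultiples, hx]
        have hs2 : 2 ≤ s := by
          by_contra hlt
          have : s ≤ 1 := by omega
          have := Nat.pow_le_pow_right (by norm_num : 0 < 2) this
          omega
        have h4 := AddSubgroup.card_eq_card_quotient_mul_card_addSubgroup H
        rw [hHc] at h4
        have hD4 : D = 2 ^ (s - 2) * 4 := by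
          rw [hs]
          obtain ⟨t, rfl⟩ := Nat.exists_eq_add_of_le hs2
          rw [pow_add, Nat.add_sub_cancel_left]
          ring
        obtain ⟨K', hK'⟩ := exists_addSubgroup_card _ (G ⧸ H) rfl (2 ^ (s - 2)) (by
          apply Nat.dvd_of_mul_dvd_mul_right (by norm_num : 0 < 4)
          rw [← h4, ← hD4, Nat.card_eq_fintype_card]
          exact hD1)
        refine ⟨K'.comap (QuotientAddGroup.mk' H), ?_, x, ?_, ?_⟩
        · rw [card_comap_mk, hHc, hK', hD4, mul_comm]
        · rw [AddSubgroup.mem_comap]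
          have : QuotientAddGroup.mk' H x = 0 :=
            (QuotientAddGroup.eq_zero_iff x).2 (AddSubgroup.mem_zmultiples x)
          rw [this]; exact K'.zero_mem
        · intro hxx
          have : 2 • x = 0 := by
            rw [two_nsmul]
            nth_rewrite 1 [← hxx]
            simp
          have := addOrderOf_dvd_of_nsmul_eq_zero this
          rw [hx] at this
          revert this; decide
      · rcases Nat.eq_two_pow_or_exists_odd_prime_and_dvd D with ⟨s, hs'⟩ | ⟨p, hp, hpD, hodd⟩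
        · exact absurd ⟨s, hs'⟩ hs
        · have : Fact p.Prime := ⟨hp⟩
          obtain ⟨x, hx⟩ := exists_prime_addOrderOf_dvd_card' (G := K₀) p (by rw [hK₀]; exact hpD)
          refine ⟨K₀, hK₀, x.1, x.2, ?_⟩
          intro hxx
          have h2 : 2 • x = 0 := by
            apply Subtype.ext
            rw [two_nsmul]
            show x.1 + x.1 = 0
            nth_rewrite 1 [← hxx]
            simp
          have h3 := addOrderOf_dvd_of_nsmul_eq_zero h2
          rw [hx] at h3
          have h4 := (Nat.prime_dvd_prime_iff_eq hp Nat.prime_two).1 h3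
          subst h4
          revert hodd; decide
    have hc1 : cdiv m (Nat.card K) = 1 := by rw [hK]; exact cdiv_eq_one (by omega) hD2
    refine near_sufficient (K := K) hm2 hh hmn ?_ ?_ ?_ (Or.inl ⟨hc1, a, haK, haa⟩)
    · rw [hK, fd_of_le (by omega) hD2, ← hu]
      exact u_le_rhoPM (by omega) hmn hh
    · rw [hK]
      intro hdvd
      exact absurd (Nat.le_of_dvd (by omega) hdvd) (by omega)
    · right; rw [hc1]; exact odd_one

end thms

/-! ### When is `u = D`? -/

lemma exists_chain {n m h d : ℕ} (hm : 0 < m) (hmn : m ≤ n) (hh : 1 ≤ h)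
    (hp : ∀ p, p.Prime → p ∣ n → p ≤ h) (hd : d ∣ n) : leastDiv n m ≤ fd m h d := by
  classical
  have hn : 0 < n := by omega
  have hd0 : 0 < d := Nat.pos_of_dvd_of_pos hd hn
  -- least multiple of `d` dividing `n` and at least `m`
  have hne : ∃ e, d ∣ e ∧ e ∣ n ∧ m ≤ e := ⟨n, hd, dvd_rfl, hmn⟩
  obtain ⟨h1, h2, h3⟩ := Nat.find_spec hne
  have hmin : ∀ e', e' < Nat.find hne → ¬ (d ∣ e' ∧ e' ∣ n ∧ m ≤ e') := fun e' he' =>
    Nat.find_min hne he'
  set e := Nat.find hne
  refine (leastDiv_le h2 h3).trans ?_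
  have he0 : 0 < e := by omega
  have hc := cdiv_pos (m := m) hd0 hm
  by_cases hed : e = d
  · rw [hed, fd]
    exact Nat.le_mul_of_pos_left _ (by omega)
  · obtain ⟨f, hf⟩ := h1
    have hf1 : f ≠ 1 := by rintro rfl; exact hed (by rw [hf, mul_one])
    have hpr := Nat.minFac_prime hf1
    obtain ⟨g, hg⟩ := Nat.minFac_dvd f
    set p := f.minFac
    have hpe : e = p * (d * g) := by rw [hf, hg]; ring
    have hpn : p ∣ n := dvd_trans ⟨_, hpe⟩ h2
    have hlt : d * g < e := by
      rw [hpe]
      apply (Nat.lt_mul_iff_one_lt_left _).2 hpr.one_lt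
      apply Nat.pos_of_ne_zero
      intro h0
      rw [h0, mul_zero] at hpe
      omega
    have hnot := hmin _ hlt
    have hdgm : d * g < m := by
      by_contra hge
      exact hnot ⟨Dvd.intro _ rfl, dvd_trans ⟨p, by rw [hpe]; ring⟩ h2, by omega⟩
    have hgc : g ≤ cdiv m d - 1 := by
      have := le_cdiv_mul m hd0
      have h5 : g * d < cdiv m d * d := by rw [mul_comm g]; omega
      have := Nat.lt_of_mul_lt_mul_right h5
      omega
    rw [hpe, fd]
    calc p * (d * g) ≤ h * (d * (cdiv m d - 1)) :=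
          Nat.mul_le_mul (hp p hpr hpn) (Nat.mul_le_mul_left d hgc)
      _ = (h * (cdiv m d - 1)) * d := by ring
      _ ≤ _ := Nat.mul_le_mul_right _ (by omega)

lemma u_eq_leastDiv {n m h : ℕ} (hm : 0 < m) (hmn : m ≤ n)
    (H : ∀ d, d ∣ n → leastDiv n m ≤ fd m h d) : u n m h = leastDiv n m := by
  obtain ⟨hD1, hD2⟩ := leastDiv_spec hmn
  apply le_antisymm
  · refine (u_le hD1).trans ?_
    rw [fd_of_le hm hD2]
  · obtain ⟨d, hd, hu⟩ := exists_u n m h
    rw [hu]
    exact H d hd

lemma u_eq_of_primes {n m h : ℕ} (hm : 0 < m) (hmn : m ≤ n) (hh : 1 ≤ h)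
    (hp : ∀ p, p.Prime → p ∣ n → p ≤ h) : u n m h = leastDiv n m :=
  u_eq_leastDiv hm hmn fun d hd => exists_chain hm hmn hh hp hd

lemma u_eq_of_large {n m h : ℕ} (hm : 0 < m) (hmn : m ≤ n) (hh : 2 ≤ h) (hlarge : n < 2 * m) :
    u n m h = leastDiv n m := by
  apply u_eq_leastDiv hm hmn
  intro d hd
  have hn : 0 < n := by omega
  refine (leastDiv_le dvd_rfl hmn).trans ?_
  have hd0 : 0 < d := Nat.pos_of_dvd_of_pos hd hn
  obtain ⟨N, rfl⟩ := hd
  rw [fd, mul_comm d N]
  apply Nat.mul_le_mul_right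
  have h1 := le_cdiv_mul m hd0
  have h2 : N * d < 2 * cdiv m d * d := by
    calc N * d = d * N := mul_comm _ _
      _ < 2 * m := hlarge
      _ ≤ 2 * (cdiv m d * d) := by omega
      _ = _ := by ring
  have h3 := Nat.lt_of_mul_lt_mul_right h2
  have h4 := Nat.mul_le_mul_right (cdiv m d - 1) hh
  omega

/-! ### The trivial cases `m = 1` and `h = 0` -/

section small

variable {G : Type*} [AddCommGroup G] [DecidableEq G] [Fintype G]

lemma signed_singleton (h : ℕ) (a : G) : signedSumset h {a} = {h • a, -(h • a)} := by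
  ext x
  simp only [signedSumset, Finset.sum_singleton, Set.mem_setOf_eq, Set.mem_insert_iff,
    Set.mem_singleton_iff]
  constructor
  · rintro ⟨c, hc, rfl⟩
    rcases (abs_eq (by positivity)).1 hc with h1 | h1
    · left; rw [h1, natCast_zsmul]
    · right; rw [h1, neg_zsmul, natCast_zsmul]
  · rintro (rfl | rfl)
    · exact ⟨fun _ => h, by simp, by simp⟩
    · exact ⟨fun _ => -h, by simp, by simp⟩

lemma signed_zero (A : Finset G) : signedSumset 0 A = {0} := by
  ext x
  simp only [signedSumset, Set.mem_setOf_eq, Set.mem_singleton_iff, Nat.cast_zero]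
  constructor
  · rintro ⟨c, hc, rfl⟩
    rw [Finset.sum_eq_zero_iff_of_nonneg (fun a _ => abs_nonneg _)] at hc
    apply Finset.sum_eq_zero
    intro a ha
    rw [abs_eq_zero.1 (hc a ha), zero_zsmul]
  · rintro rfl
    exact ⟨fun _ => 0, by simp, by simp⟩

lemma rhoPM_mem {m : ℕ} (hmn : m ≤ Fintype.card G) (h : ℕ) :
    ∃ A : Finset G, A.card = m ∧ rhoPM G m h = (signedSumset h A).ncard := by
  obtain ⟨A₀, _, hA₀⟩ := Finset.exists_subset_card_eq (s := (Finset.univ : Finset G)) (n := m)
    (by rw [Finset.card_univ]; exact hmn)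
  exact Nat.sInf_mem (s := {t | ∃ A : Finset G, A.card = m ∧ t = (signedSumset h A).ncard})
    ⟨_, A₀, hA₀, rfl⟩

lemma near_singleton {a : G} (haa : -a ≠ a) : NearSymm ({a} : Finset G) := by
  refine ⟨?_, a, Finset.mem_singleton_self a, ?_⟩
  · intro h
    exact haa (Finset.mem_singleton.1 (h a (Finset.mem_singleton_self a)))
  · intro b hb
    simp at hb

theorem one_iff (h : ℕ) : NearSymmAttains G 1 h ↔ ∃ a : G, -a ≠ a ∧ (2 * h) • a = 0 := by
  have h1n : 1 ≤ Fintype.card G := Fintype.card_pos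
  have hρ : rhoPM G 1 h = 1 := by
    apply le_antisymm
    · refine (rhoPM_le (A := {(0 : G)}) (Finset.card_singleton _) h).trans ?_
      rw [signed_singleton]
      simp
    · obtain ⟨A, hA, hr⟩ := rhoPM_mem (G := G) h1n h
      rw [hr]
      obtain ⟨a, rfl⟩ := Finset.card_eq_one.1 hA
      rw [signed_singleton]
      exact Nat.one_le_iff_ne_zero.2 (Set.ncard_ne_zero_of_mem (Set.mem_insert _ _))
  constructor
  · rintro ⟨A, hA, hN, hr⟩
    obtain ⟨a, rfl⟩ := Finset.card_eq_one.1 hA
    obtain ⟨b, S, hbS, h1, h2, h3, -⟩ := near_structure hN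
    have hb : b = a := by
      have : b ∈ ({a} : Finset G) := by rw [hbS]; exact Finset.mem_insert_self _ _
      exact Finset.mem_singleton.1 this
    subst hb
    refine ⟨b, h3, ?_⟩
    rw [hρ, signed_singleton, Set.ncard_eq_one] at hr
    obtain ⟨y, hy⟩ := hr
    have e1 : h • b = y := by
      have : h • b ∈ ({h • b, -(h • b)} : Set G) := Set.mem_insert _ _
      rw [hy] at this; exact this
    have e2 : -(h • b) = y := by
      have : -(h • b) ∈ ({h • b, -(h • b)} : Set G) := Set.mem_insert_of_mem _ rfl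
      rw [hy] at this; exact this
    rw [two_mul, add_nsmul]
    nth_rewrite 1 [e1, ← e2]
    simp
  · rintro ⟨a, haa, ha⟩
    refine ⟨{a}, Finset.card_singleton a, near_singleton haa, ?_⟩
    rw [hρ, signed_singleton]
    have : -(h • a) = h • a := by
      rw [two_mul, add_nsmul] at ha
      exact neg_eq_of_add_eq_zero_left ha
    rw [this]
    simp

theorem zero_iff {m : ℕ} (hm : 1 ≤ m) (hmn : m ≤ Fintype.card G) :
    NearSymmAttains G m 0 ↔ m < Fintype.card G ∧ ∃ a : G, -a ≠ a := by
  constructor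
  · rintro ⟨A, hA, hN, -⟩
    obtain ⟨a, S, rfl, h1, h2, h3, -⟩ := near_structure hN
    refine ⟨?_, a, h3⟩
    have h4 : -a ∉ insert a S := by
      rw [Finset.mem_insert, not_or]; exact ⟨h3, h2⟩
    rw [← hA]
    have : (insert a S).card < (Finset.univ : Finset G).card := by
      apply Finset.card_lt_card
      refine Finset.ssubset_iff_subset_ne.2 ⟨Finset.subset_univ _, fun h => h4 ?_⟩
      rw [h]; exact Finset.mem_univ _
    rwa [Finset.card_univ] at this
  · rintro ⟨hlt, a, haa⟩
    obtain ⟨A, -, hAc, hAn⟩ := exists_near (X := (Finset.univ : Finset G))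
      (fun a _ => Finset.mem_univ _) (Finset.mem_univ a) haa (m := m) (by omega)
      (by rw [Finset.card_univ]; omega) (Or.inr ⟨0, Finset.mem_univ _, neg_zero⟩)
    obtain ⟨A', _, hr⟩ := rhoPM_mem (G := G) hmn 0
    refine ⟨A, hAc, hAn, ?_⟩
    rw [hr, signed_zero, signed_zero]

end small

end SignedSum
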