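import Pool.Agent.Helper24.SignedSum.Constr

set_option linter.unusedSectionVars false
set_option linter.unusedVariables false

open scoped Pointwise
open Helper24.Kneser

namespace SignedSum

section general

variable {G : Type*} [AddCommGroup G] [DecidableEq G] [Fintype G]

/-- Necessary conditions from Kneser's theorem. -/
theorem near_info {A : Finset G} (hA : NearSymm A) {m h : ℕ} (hm : A.card = m) (hm2 : 2 ≤ m)
    (hh : 0 < h) (hu : (signedSumset h A).ncard ≤ u (Fintype.card G) m h) :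
    ∃ (B : Finset G) (K : AddSubgroup G), IsSymm B ∧ B.card = m + 1 ∧ (∃ a ∈ B, -a ≠ a) ∧
      Nat.card K ∣ Fintype.card G ∧ fd m h (Nat.card K) = u (Fintype.card G) m h ∧
      ¬ Nat.card K ∣ m ∧ ∀ _ : DecidableEq (G ⧸ K),
        (B.image (QuotientAddGroup.mk : G → G ⧸ K)).card = cdiv m (Nat.card K) ∧
        stab (h • B.image (QuotientAddGroup.mk : G → G ⧸ K)) = ⊥ ∧
        (h • B.image (QuotientAddGroup.mk : G → G ⧸ K)).card = h * (cdiv m (Nat.card K) - 1) + 1 := by
  classical
  obtain ⟨a, S, rfl, haS, haS', haa, hS⟩ := near_structure hA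
  have hSc : S.card + 1 = m := by rw [← hm, Finset.card_insert_of_notMem haS]
  have hSne : S.Nonempty := Finset.card_pos.1 (by omega)
  rw [near_eq hS hSne haS haS' haa, Set.ncard_coe_finset] at hu
  set B := insert (-a) (insert a S) with hB
  have hBc : B.card = m + 1 := by
    rw [hB, Finset.card_insert_of_notMem, hm]
    rw [Finset.mem_insert, not_or]; exact ⟨haa, haS'⟩
  have hBne : B.Nonempty := Finset.card_pos.1 (by omega)
  have hBs : IsSymm B := by
    intro x hx
    rw [hB, Finset.mem_insert, Finset.mem_insert] at hx ⊢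
    rcases hx with rfl | rfl | hx
    · simp
    · simp
    · exact Or.inr (Or.inr (hS x hx))
  obtain ⟨K, hK⟩ := kneser_info hBne hh
  have hd : 0 < Nat.card K := Nat.card_pos
  letI i0 : DecidableEq (G ⧸ K) := Classical.decEq _
  obtain ⟨h1, h2, h3, h4⟩ := hK i0
  rw [hBc] at h2
  set Y := B.image (QuotientAddGroup.mk : G → G ⧸ K) with hY
  have hYpos : 0 < Y.card := Finset.card_pos.2 (hBne.image _)
  have h5 : h * (Y.card - 1) + 1 ≤ (h • Y).card := card_nsmul_ge (hBne.image _) h4 le_rfl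
  have hcp : 0 < cdiv m (Nat.card K) := cdiv_pos hd (by omega)
  have h6 : cdiv m (Nat.card K) ≤ Y.card := cdiv_le hd (by omega)
  have h7 : fd m h (Nat.card K) ≤ (h * (Y.card - 1) + 1) * Nat.card K := by
    unfold fd
    apply Nat.mul_le_mul_right
    have := Nat.mul_le_mul_left h (Nat.sub_le_sub_right h6 1)
    omega
  have h8 : (h * (Y.card - 1) + 1) * Nat.card K ≤ (h • B).card := by
    rw [h3]; exact Nat.mul_le_mul_right _ h5
  have h9 : u (Fintype.card G) m h ≤ fd m h (Nat.card K) := u_le h1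
  have h10 : fd m h (Nat.card K) = (h * (Y.card - 1) + 1) * Nat.card K := by omega
  have h11 : (h * (Y.card - 1) + 1) * Nat.card K = (h • B).card := by omega
  have h12 : cdiv m (Nat.card K) = Y.card := by
    unfold fd at h10
    have := Nat.eq_of_mul_eq_mul_right hd h10
    have := Nat.eq_of_mul_eq_mul_left hh (Nat.add_right_cancel this)
    omega
  refine ⟨B, K, hBs, hBc, ⟨a, by simp [hB], haa⟩, h1, by omega, ?_, ?_⟩
  · intro hdvd
    have := (dvd_iff_cdiv hd (by omega)).1 hdvd
    rw [h12] at this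
    omega
  · have h13 : (h • Y).card = h * (Y.card - 1) + 1 := by
      rw [h3] at h11
      exact (Nat.eq_of_mul_eq_mul_right hd h11).symm
    intro inst
    have hinst : inst = i0 := Subsingleton.elim _ _
    subst hinst
    rw [h12]
    exact ⟨rfl, h4, h13⟩

lemma u_one_le {n m : ℕ} (hm : 0 < m) : u n m 1 ≤ m := by
  refine (u_le (one_dvd n)).trans ?_
  have h1 := lt_of_cdiv (d := 1) one_pos hm
  unfold fd
  omega

lemma not_fd_one {n m d : ℕ} (hd : 0 < d) (hm : 0 < m) (h1 : fd m 1 d = u n m 1) : d ∣ m := by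
  rw [dvd_iff_cdiv hd hm]
  have h2 := u_one_le (n := n) hm
  have h3 := le_cdiv_mul m hd
  have h4 := cdiv_pos hd hm
  have h5 : fd m 1 d = cdiv m d * d := by
    unfold fd
    congr 1
    omega
  omega

/-- The parity condition in groups all of whose quotients have at most one involution. -/
theorem near_parity {A : Finset G} (hA : NearSymm A) {m h : ℕ} (hm : A.card = m) (hm2 : 2 ≤ m)
    (hh : 0 < h) (hu : (signedSumset h A).ncard ≤ u (Fintype.card G) m h)
    (hinv : ∀ K : AddSubgroup G, {x : G ⧸ K | -x = x}.ncard ≤ 2) :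
    ∃ d, d ∣ Fintype.card G ∧ fd m h d = u (Fintype.card G) m h ∧ ¬ d ∣ m ∧
      (Odd m ∨ Odd (cdiv m d)) := by
  classical
  obtain ⟨B, K, hBs, hBc, -, h1, h2, h3, h4⟩ := near_info hA hm hm2 hh hu
  obtain ⟨h5, h6, h7⟩ := h4 inferInstance
  set Y := B.image (QuotientAddGroup.mk : G → G ⧸ K) with hY
  have hd : 0 < Nat.card K := Nat.card_pos
  refine ⟨Nat.card K, h1, h2, h3, ?_⟩
  by_contra hcon
  rw [not_or, Nat.not_odd_iff_even, Nat.not_odd_iff_even] at hcon
  obtain ⟨hme, hce⟩ := hcon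
  -- `h ≥ 2`
  have hh2 : 2 ≤ h := by
    by_contra hlt
    have : h = 1 := by omega
    subst this
    exact h3 (not_fd_one hd (by omega) h2)
  -- a self-inverse element
  have hodd : ¬ Even B.card := by
    rw [hBc, Nat.even_add_one]; simpa using hme
  obtain ⟨b, hb, hbb⟩ : ∃ b ∈ B, -b = b := by
    by_contra hno
    push Not at hno
    exact hodd (even_of_symm hBs hno)
  have hYs : IsSymm Y := by
    intro y hy
    obtain ⟨x, hx, rfl⟩ := Finset.mem_image.1 hy
    exact Finset.mem_image.2 ⟨-x, hBs x hx, rfl⟩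
  have hyb : (QuotientAddGroup.mk b : G ⧸ K) ∈ Y := Finset.mem_image_of_mem _ hb
  have hybb : -(QuotientAddGroup.mk b : G ⧸ K) = QuotientAddGroup.mk b := by
    rw [← QuotientAddGroup.mk_neg, hbb]
  have : Fintype (G ⧸ K) := Fintype.ofFinite _
  have hinv' : (Finset.univ.filter (fun x : G ⧸ K => -x = x)).card ≤ 2 := by
    rw [← Set.ncard_coe_finset]
    have := hinv K
    simpa using this
  have hpar : ∀ j, 0 < j → Even (j • Y).card := fun j hj =>
    parity_main hinv' hYs (by rw [h5]; exact hce) hyb hybb hj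
  have hYne : Y.Nonempty := ⟨_, hyb⟩
  have hYpos : 0 < Y.card := Finset.card_pos.2 hYne
  have hcard : ∀ j, j ≤ h → (j • Y).card = j * (Y.card - 1) + 1 := by
    intro j hj
    have a1 := card_nsmul_ge hYne h6 hj
    obtain ⟨i, hi⟩ := Nat.exists_eq_add_of_le hj
    have a2 := card_nsmul_sub hYne h6 (j := j) (i := i) (by omega)
    rw [← hi, h7, ← h5, hi, add_mul] at a2
    omega
  -- choose an even number among `h - 1`, `h`
  obtain ⟨j, hj0, hjh, hje⟩ : ∃ j, 0 < j ∧ j ≤ h ∧ Even j := by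
    exact ⟨2, by omega, hh2, even_two⟩
  have b1 := hpar j hj0
  rw [hcard j hjh, Nat.even_add_one] at b1
  exact b1 (Even.mul_right hje _)

/-- Sufficient condition: a union of cosets in arithmetic progression. -/
theorem near_sufficient {K : AddSubgroup G} {m h : ℕ} (hm2 : 2 ≤ m) (hh : 0 < h)
    (hmn : m ≤ Fintype.card G)
    (hfd : fd m h (Nat.card K) ≤ rhoPM G m h) (hdvd : ¬ Nat.card K ∣ m)
    (hpar : Odd m ∨ Odd (cdiv m (Nat.card K)))
    (hstr : (cdiv m (Nat.card K) = 1 ∧ ∃ a ∈ K, -a ≠ a) ∨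
      (2 ≤ cdiv m (Nat.card K) ∧ ∃ δ : G ⧸ K, 2 * (cdiv m (Nat.card K) - 1) < addOrderOf δ)) :
    NearSymmAttains G m h := by
  classical
  have hd : 0 < Nat.card K := Nat.card_pos
  set k := cdiv m (Nat.card K) with hk
  have hkpos : 0 < k := cdiv_pos hd (by omega)
  have hkd : m + 1 ≤ Nat.card K * k := by
    have h1 := le_cdiv_mul m hd
    rw [← hk] at h1
    rcases Nat.lt_or_ge m (k * Nat.card K) with h2 | h2
    · rw [mul_comm]; omega
    · exact absurd ((dvd_iff_cdiv hd (by omega)).2 (by rw [← hk]; omega)) hdvd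
  obtain ⟨X, hXs, hXc, hXh, a, haX, haa, hX0⟩ : ∃ X : Finset G, IsSymm X ∧
      m + 1 ≤ X.card ∧ (h • X).card ≤ fd m h (Nat.card K) ∧ ∃ a ∈ X, -a ≠ a ∧
      (Odd k → (0 : G) ∈ X) := by
    rcases hstr with ⟨hk1, a, haK, haa⟩ | ⟨hk2, δ, hδ⟩
    · refine ⟨subF K, subF_symm K, ?_, ?_, a, mem_subF.2 haK, haa, fun _ => mem_subF.2 K.zero_mem⟩
      · rw [card_subF]
        rw [hk1, mul_one] at hkd
        exact hkd
      · refine (card_nsmul_subF_le K h).trans ?_
        unfold fd
        rw [← hk, hk1]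
        simp
    · obtain ⟨a, ha⟩ := QuotientAddGroup.mk_surjective ((((k - 1 : ℕ) : ℤ)) • δ)
      refine ⟨lift K (ap δ k), lift_symm (ap_symm δ k), ?_, ?_, a, ?_, ?_, ?_⟩
      · rw [card_lift, card_ap hδ]; exact hkd
      · refine (card_nsmul_lift_le _ h).trans ?_
        unfold fd
        rw [← hk, mul_comm]
        exact Nat.mul_le_mul_right _ (nsmul_ap δ k hkpos h)
      · rw [mem_lift, ha]
        exact top_mem_ap δ hkpos
      · intro haa
        have := top_ne hk2 hδ
        rw [← ha] at this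
        apply this
        rw [← QuotientAddGroup.mk_neg, haa]
      · intro hodd
        rw [mem_lift, QuotientAddGroup.mk_zero]
        exact zero_mem_ap δ hodd
  obtain ⟨A, hAX, hAc, hAn⟩ := exists_near hXs haX haa (m := m) (by omega) hXc (by
    rcases hpar with h | h
    · exact Or.inl h
    · exact Or.inr ⟨0, hX0 h, neg_zero⟩)
  refine ⟨A, hAc, hAn, le_antisymm ?_ (rhoPM_le hAc h)⟩
  exact (ncard_signed_le hAX hXs h).trans (hXh.trans hfd)

lemma rhoPM_le_fd {K : AddSubgroup G} {m h : ℕ} (hm : 0 < m)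
    (hstr : cdiv m (Nat.card K) = 1 ∨
      ∃ δ : G ⧸ K, 2 * (cdiv m (Nat.card K) - 1) < addOrderOf δ) :
    rhoPM G m h ≤ fd m h (Nat.card K) := by
  classical
  have hd : 0 < Nat.card K := Nat.card_pos
  set k := cdiv m (Nat.card K) with hk
  have hkpos : 0 < k := cdiv_pos hd hm
  have hkd : m ≤ Nat.card K * k := by
    have h1 := le_cdiv_mul m hd
    rw [mul_comm, hk]; exact h1
  rcases hstr with hk1 | ⟨δ, hδ⟩
  · refine (rhoPM_le_of_symm (subF_symm K) ?_ h).trans ((card_nsmul_subF_le K h).trans ?_)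
    · rw [card_subF]
      rw [hk1, mul_one] at hkd
      exact hkd
    · unfold fd
      rw [← hk, hk1]
      simp
  · refine (rhoPM_le_of_symm (lift_symm (K := K) (ap_symm δ k)) ?_ h).trans
      ((card_nsmul_lift_le _ h).trans ?_)
    · rw [card_lift, card_ap hδ]; exact hkd
    · unfold fd
      rw [← hk, mul_comm]
      exact Nat.mul_le_mul_right _ (nsmul_ap δ k hkpos h)

end general

end SignedSum
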