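import Pool.Agent.Helper24.SignedSum.Final

set_option linter.unusedSectionVars false
set_option linter.unusedVariables false

open scoped Pointwise
open Helper24.Kneser

namespace SignedSum

universe v

/-! ### Elementary abelian 3-groups -/

lemma two_nsmul_eq_add {G : Type*} [AddCommGroup G] [DecidableEq G] (B : Finset G) :
    2 • B = B + B := two_nsmul B

lemma card_quot_lt {G : Type v} [AddCommGroup G] [Finite G] {z : G} (hz : z ≠ 0) :
    Nat.card (G ⧸ AddSubgroup.zmultiples z) < Nat.card G := by
  have h4 := AddSubgroup.card_eq_card_quotient_mul_card_addSubgroup (AddSubgroup.zmultiples z)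
  have h1 : 0 < Nat.card (G ⧸ AddSubgroup.zmultiples z) := Nat.card_pos
  have h2 : 1 < Nat.card (AddSubgroup.zmultiples z) := by
    rw [Nat.card_zmultiples]
    have h3 := addOrderOf_pos z
    have h5 : addOrderOf z ≠ 1 := fun h => hz (AddMonoid.addOrderOf_eq_one_iff.1 h)
    omega
  rw [h4]
  exact (Nat.lt_mul_iff_one_lt_right h1).2 h2

lemma card_three (N : ℕ) : ∀ (G : Type v) [AddCommGroup G] [Finite G], Nat.card G = N →
    (∀ x : G, 3 • x = 0) → ∃ r, Nat.card G = 3 ^ r := by
  induction N using Nat.strong_induction_on with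
  | _ N ih =>
  intro G _ _ hG h3
  by_cases htriv : ∀ z : G, z = 0
  · refine ⟨0, ?_⟩
    have : Subsingleton G := ⟨fun a b => by rw [htriv a, htriv b]⟩
    simp
  · push Not at htriv
    obtain ⟨z, hz⟩ := htriv
    have hlt := card_quot_lt hz
    obtain ⟨r, hr⟩ := ih _ (hG ▸ hlt) (G ⧸ AddSubgroup.zmultiples z) rfl (by
      intro x
      obtain ⟨y, rfl⟩ := QuotientAddGroup.mk_surjective x
      rw [← QuotientAddGroup.mk_nsmul, h3, QuotientAddGroup.mk_zero])
    refine ⟨r + 1, ?_⟩
    rw [AddSubgroup.card_eq_card_quotient_mul_card_addSubgroup (AddSubgroup.zmultiples z), hr,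
      Nat.card_zmultiples, pow_succ]
    congr 1
    have h5 : addOrderOf z ≠ 1 := fun h => hz (AddMonoid.addOrderOf_eq_one_iff.1 h)
    exact ((Nat.dvd_prime Nat.prime_three).1 (addOrderOf_dvd_of_nsmul_eq_zero (h3 z))).resolve_left h5

/-- In a group of exponent 3, `|2B| ≥ 3^(s+1)` for symmetric `B` with `|B| > 3^s`. -/
lemma three_bound (N : ℕ) : ∀ (G : Type v) [AddCommGroup G] [DecidableEq G] [Fintype G],
    Nat.card G = N → (∀ x : G, 3 • x = 0) → ∀ (B : Finset G), IsSymm B → ∀ s, 3 ^ s < B.card →
    3 ^ (s + 1) ≤ (2 • B).card := by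
  classical
  induction N using Nat.strong_induction_on with
  | _ N ih =>
  intro G _ _ _ hG h3 B hB s hs
  have hBne : B.Nonempty := Finset.card_pos.1 (by
    have : 0 < 3 ^ s := by positivity
    omega)
  by_cases huniv : ∀ z : G, z ∈ 2 • B
  · have h1 : 2 • B = Finset.univ := Finset.eq_univ_iff_forall.2 huniv
    obtain ⟨r, hr⟩ := card_three N G hG h3
    rw [h1, Finset.card_univ, ← Nat.card_eq_fintype_card, hr]
    have h2 : B.card ≤ 3 ^ r := by
      rw [← hr, Nat.card_eq_fintype_card]
      exact Finset.card_le_univ B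
    have h4 := lt_of_lt_of_le hs h2
    exact Nat.pow_le_pow_right (by norm_num) ((Nat.pow_lt_pow_iff_right (by norm_num)).1 h4)
  · push Not at huniv
    obtain ⟨z, hz⟩ := huniv
    have hz' : -z ∉ 2 • B := fun h => hz (by simpa using nsmul_symm hB 2 _ h)
    have hz0 : z ≠ 0 := by
      rintro rfl
      obtain ⟨b, hb⟩ := hBne
      apply hz
      rw [two_nsmul]
      exact Finset.mem_add.2 ⟨b, hb, -b, hB b hb, by simp⟩
    set H := AddSubgroup.zmultiples z with hH
    have h3q : ∀ x : G ⧸ H, 3 • x = 0 := by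
      intro x
      obtain ⟨y, rfl⟩ := QuotientAddGroup.mk_surjective x
      rw [← QuotientAddGroup.mk_nsmul, h3, QuotientAddGroup.mk_zero]
    have hmem : ∀ x ∈ H, x = 0 ∨ x = z ∨ x = -z := by
      rintro x ⟨i, rfl⟩
      have h3z : (3 : ℤ) • z = 0 := by
        have := h3 z
        exact_mod_cast this
      have hdiv := Int.emod_add_mul_ediv i 3
      have hcalc : i • z = (i % 3) • z := by
        conv_lhs => rw [← hdiv]
        rw [add_zsmul, mul_comm, mul_zsmul, h3z, zsmul_zero, add_zero]
      show i • z = 0 ∨ i • z = z ∨ i • z = -z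
      rw [hcalc]
      have h6 := Int.emod_nonneg i (by norm_num : (3 : ℤ) ≠ 0)
      have h7 := Int.emod_lt_of_pos i (by norm_num : (0 : ℤ) < 3)
      have h8 : i % 3 = 0 ∨ i % 3 = 1 ∨ i % 3 = 2 := by omega
      rcases h8 with h | h | h
      · left; rw [h, zero_zsmul]
      · right; left; rw [h, one_zsmul]
      · right; right
        rw [h]
        rw [eq_neg_iff_add_eq_zero]
        have : (2 : ℤ) • z + z = (3 : ℤ) • z := by
          rw [show (3 : ℤ) = 2 + 1 from rfl, add_zsmul, one_zsmul]
        rw [this, h3z]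
    have hinj : Set.InjOn (QuotientAddGroup.mk : G → G ⧸ H) (B : Set G) := by
      intro b hb c hc hbc
      have h5 := QuotientAddGroup.eq.1 hbc
      have h6 : -b + c ∈ 2 • B := by
        rw [two_nsmul]
        exact Finset.add_mem_add (hB b hb) hc
      rcases hmem _ h5 with h | h | h
      · exact (neg_add_eq_zero.1 h)
      · exact absurd (h ▸ h6) hz
      · exact absurd (h ▸ h6) hz'
    have hcard : (B.image (QuotientAddGroup.mk : G → G ⧸ H)).card = B.card :=
      Finset.card_image_of_injOn hinj
    have hsym : IsSymm (B.image (QuotientAddGroup.mk : G → G ⧸ H)) := by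
      intro y hy
      obtain ⟨x, hx, rfl⟩ := Finset.mem_image.1 hy
      exact Finset.mem_image.2 ⟨-x, hB x hx, rfl⟩
    have : Fintype (G ⧸ H) := Fintype.ofFinite _
    have h9 := ih _ (hG ▸ card_quot_lt hz0) (G ⧸ H) rfl h3q
      (B.image (QuotientAddGroup.mk : G → G ⧸ H)) hsym s (by rw [hcard]; exact hs)
    refine h9.trans ?_
    rw [two_nsmul, ← image_add_quot, ← two_nsmul]
    exact Finset.card_image_le

section

variable {G : Type v} [AddCommGroup G] [DecidableEq G] [Fintype G]

/-- `A ∪ (-A)`. -/
def sym (A : Finset G) : Finset G := A ∪ A.image (fun x => -x)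

lemma mem_sym {A : Finset G} {x : G} : x ∈ sym A ↔ x ∈ A ∨ -x ∈ A := by
  unfold sym
  rw [Finset.mem_union, Finset.mem_image]
  constructor
  · rintro (h | ⟨y, hy, rfl⟩)
    · exact Or.inl h
    · right; rwa [neg_neg]
  · rintro (h | h)
    · exact Or.inl h
    · exact Or.inr ⟨-x, h, neg_neg x⟩

lemma sym_symm (A : Finset G) : IsSymm (sym A) := by
  intro x hx
  rw [mem_sym] at hx ⊢
  rw [neg_neg]
  exact hx.symm

lemma pair_mem {A : Finset G} {a b : G} (ha : a ∈ A) (hb : b ∈ A) (hab : a ≠ b) {s t : ℤ}
    (hst : |s| + |t| = 2) : s • a + t • b ∈ signedSumset 2 A := by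
  refine ⟨fun z => (if z = a then s else 0) + (if z = b then t else 0), ?_, ?_⟩
  · have h1 : ∀ z ∈ A, |(if z = a then s else 0) + (if z = b then t else 0)| =
        (if z = a then |s| else 0) + (if z = b then |t| else 0) := by
      intro z _
      by_cases hz : z = a
      · subst hz; simp [hab]
      · by_cases hz' : z = b
        · subst hz'; simp [hz]
        · simp [hz, hz']
    rw [Finset.sum_congr rfl h1, Finset.sum_add_distrib, Finset.sum_ite_eq', Finset.sum_ite_eq',
      if_pos ha, if_pos hb, hst]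
    rfl
  · have h1 : ∀ z ∈ A, ((if z = a then s else 0) + (if z = b then t else 0)) • z =
        (if z = a then s • a else 0) + (if z = b then t • b else 0) := by
      intro z _
      rw [add_zsmul]
      congr 1
      · by_cases hz : z = a
        · subst hz; simp
        · simp [hz]
      · by_cases hz : z = b
        · subst hz; simp
        · simp [hz]
    rw [Finset.sum_congr rfl h1, Finset.sum_add_distrib, Finset.sum_ite_eq', Finset.sum_ite_eq',
      if_pos ha, if_pos hb]

lemma single_mem {A : Finset G} {a : G} (ha : a ∈ A) {s : ℤ} (hs : |s| = 2) :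
    s • a ∈ signedSumset 2 A := by
  refine ⟨fun z => if z = a then s else 0, ?_, ?_⟩
  · have h1 : ∀ z ∈ A, |(if z = a then s else 0)| = (if z = a then |s| else 0) := by
      intro z _
      by_cases hz : z = a
      · subst hz; simp
      · simp [hz]
    rw [Finset.sum_congr rfl h1, Finset.sum_ite_eq', if_pos ha, hs]
    rfl
  · have h1 : ∀ z ∈ A, (if z = a then s else 0) • z = (if z = a then s • a else 0) := by
      intro z _
      by_cases hz : z = a
      · subst hz; simp
      · simp [hz]
    rw [Finset.sum_congr rfl h1, Finset.sum_ite_eq', if_pos ha]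

/-- Every nonzero element of `2 (A ∪ -A)` is in the signed sumset. -/
lemma two_sym_sub {A : Finset G} {x : G} (hx : x ∈ 2 • sym A) (hx0 : x ≠ 0) :
    x ∈ signedSumset 2 A := by
  rw [two_nsmul] at hx
  obtain ⟨b, hb, c, hc, rfl⟩ := Finset.mem_add.1 hx
  have hsg : ∀ y ∈ sym A, ∃ a ∈ A, ∃ s : ℤ, |s| = 1 ∧ y = s • a ∧ (s = 1 ∨ s = -1) := by
    intro y hy
    rcases mem_sym.1 hy with h | h
    · exact ⟨y, h, 1, by simp, by simp, Or.inl rfl⟩
    · exact ⟨-y, h, -1, by simp, by simp, Or.inr rfl⟩
  obtain ⟨a, ha, s, hs, rfl, hs'⟩ := hsg b hb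
  obtain ⟨a', ha', t, ht, rfl, ht'⟩ := hsg c hc
  by_cases haa : a = a'
  · subst haa
    rw [← add_zsmul] at hx0 ⊢
    apply single_mem ha
    rcases hs' with rfl | rfl <;> rcases ht' with rfl | rfl
    · norm_num
    · exact absurd (by simp) hx0
    · exact absurd (by simp) hx0
    · norm_num
  · exact pair_mem ha ha' haa (by rw [hs, ht]; norm_num)

lemma zero_mem_two_sym {A : Finset G} (hne : A.Nonempty) : (0 : G) ∈ 2 • sym A := by
  obtain ⟨a, ha⟩ := hne
  rw [two_nsmul]
  exact Finset.mem_add.2 ⟨a, mem_sym.2 (Or.inl ha), -a, mem_sym.2 (Or.inr (by simpa using ha)),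
    by simp⟩

lemma signed_two_ge {A : Finset G} (hne : A.Nonempty) :
    (2 • sym A).card ≤ (signedSumset 2 A).ncard + 1 := by
  have h1 : ((2 • sym A).erase 0 : Finset G).card ≤ (signedSumset 2 A).ncard := by
    rw [← Set.ncard_coe_finset]
    apply Set.ncard_le_ncard _ (Set.toFinite _)
    intro x hx
    rw [Finset.mem_coe, Finset.mem_erase] at hx
    exact two_sym_sub hx.2 hx.1
  rw [Finset.card_erase_of_mem (zero_mem_two_sym hne)] at h1
  omega

lemma signed_two_ge_of_mem {A : Finset G} (hne : A.Nonempty) (h0 : ∃ a ∈ A, -a ∈ A) :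
    (2 • sym A).card ≤ (signedSumset 2 A).ncard := by
  rw [← Set.ncard_coe_finset]
  apply Set.ncard_le_ncard _ (Set.toFinite _)
  intro x hx
  by_cases hx0 : x = 0
  · subst hx0
    obtain ⟨a, ha, ha'⟩ := h0
    by_cases haa : a = -a
    · have := single_mem ha (s := 2) (by norm_num)
      rw [two_zsmul] at this
      nth_rewrite 2 [haa] at this
      simpa using this
    · have := pair_mem ha ha' haa (s := 1) (t := 1) (by norm_num)
      simpa using this
  · exact two_sym_sub hx hx0

lemma card_sym_of_asym {A : Finset G} (hA : ∀ a ∈ A, -a ∉ A) : (sym A).card = 2 * A.card := by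
  unfold sym
  rw [Finset.card_union_of_disjoint, Finset.card_image_of_injective _ neg_injective]
  · ring
  · rw [Finset.disjoint_left]
    intro x hx hx'
    obtain ⟨y, hy, rfl⟩ := Finset.mem_image.1 hx'
    exact hA y hy hx

lemma zero_not_mem_signed {A : Finset G} (h3 : ∀ x : G, 3 • x = 0) (hA : ∀ a ∈ A, -a ∉ A) :
    (0 : G) ∉ signedSumset 2 A := by
  rintro ⟨c, hc, hc0⟩
  push_cast at hc
  -- an element with nonzero coefficient
  obtain ⟨a, ha, hca⟩ : ∃ a ∈ A, c a ≠ 0 := by
    by_contra hno
    push Not at hno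
    rw [Finset.sum_eq_zero (fun a ha => by rw [hno a ha]; simp)] at hc
    norm_num at hc
  have ha0 : a ≠ 0 := by
    rintro rfl
    exact hA 0 ha (by simpa using ha)
  rw [← Finset.add_sum_erase _ _ ha] at hc hc0
  have hpos : 1 ≤ |c a| := Int.one_le_abs hca
  have hnn : 0 ≤ ∑ x ∈ A.erase a, |c x| := Finset.sum_nonneg fun _ _ => abs_nonneg _
  by_cases h2 : |c a| = 2
  · have hz : ∑ x ∈ A.erase a, |c x| = 0 := by omega
    rw [Finset.sum_eq_zero_iff_of_nonneg (fun _ _ => abs_nonneg _)] at hz
    rw [Finset.sum_eq_zero (s := A.erase a) (f := fun x => c x • x) (fun x hx => by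
      rw [abs_eq_zero.1 (hz x hx), zero_zsmul]), add_zero] at hc0
    have h3a := h3 a
    have h2a : (2 : ℤ) • a = 0 := by
      rcases (abs_eq (by norm_num)).1 h2 with h | h
      · rw [h] at hc0; exact hc0
      · rw [h, neg_zsmul, neg_eq_zero] at hc0; exact hc0
    apply ha0
    have h4 : (2 : ℤ) • a = 2 • a := by norm_cast
    rw [h4] at h2a
    have h5 : 3 • a = 2 • a + a := succ_nsmul a 2
    rw [h5, h2a, zero_add] at h3a
    exact h3a
  · have h1 : |c a| = 1 := by omega
    have hs1 : ∑ x ∈ A.erase a, |c x| = 1 := by omega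
    obtain ⟨b, hb, hcb⟩ : ∃ b ∈ A.erase a, c b ≠ 0 := by
      by_contra hno
      push Not at hno
      rw [Finset.sum_eq_zero (fun x hx => by rw [hno x hx]; simp)] at hs1
      norm_num at hs1
    rw [← Finset.add_sum_erase _ _ hb] at hs1 hc0
    have hposb : 1 ≤ |c b| := Int.one_le_abs hcb
    have hnn' : 0 ≤ ∑ x ∈ (A.erase a).erase b, |c x| := Finset.sum_nonneg fun _ _ => abs_nonneg _
    have hz : ∑ x ∈ (A.erase a).erase b, |c x| = 0 := by omega
    have hb1 : |c b| = 1 := by omega
    rw [Finset.sum_eq_zero_iff_of_nonneg (fun _ _ => abs_nonneg _)] at hz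
    rw [Finset.sum_eq_zero (s := (A.erase a).erase b) (f := fun x => c x • x) (fun x hx => by
      rw [abs_eq_zero.1 (hz x hx), zero_zsmul]), add_zero] at hc0
    rw [Finset.mem_erase] at hb
    rcases (abs_eq (by norm_num)).1 h1 with h | h <;>
      rcases (abs_eq (by norm_num)).1 hb1 with h' | h' <;> rw [h, h'] at hc0 <;>
      simp only [one_zsmul, neg_zsmul] at hc0
    · exact hA a ha (by rw [neg_eq_of_add_eq_zero_right hc0]; exact hb.2)
    · exact hb.1 (by
        have := add_neg_eq_zero.1 hc0
        exact this.symm)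
    · exact hb.1 (by
        have := neg_add_eq_zero.1 hc0
        exact this.symm)
    · have h6 : a + b = 0 := by
        have := congrArg Neg.neg hc0
        simpa [add_comm] using this
      exact hA a ha (by rw [neg_eq_of_add_eq_zero_right h6]; exact hb.2)

/-- Half of the nonzero elements of a symmetric set without self-inverse elements. -/
lemma exists_asym {X : Finset G} (hX : IsSymm X) (j : ℕ) (hno : ∀ x ∈ X, -x ≠ x)
    (hj : 2 * j ≤ X.card) : ∃ A ⊆ X, A.card = j ∧ ∀ a ∈ A, -a ∉ A := by
  induction j with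
  | zero => exact ⟨∅, Finset.empty_subset _, rfl, fun a ha => absurd ha (by simp)⟩
  | succ j ih =>
    obtain ⟨A, hAX, hAc, hA⟩ := ih (by omega)
    have hlt : (sym A).card < X.card := by
      rw [card_sym_of_asym hA]; omega
    obtain ⟨x, hx, hxA⟩ := Finset.exists_mem_notMem_of_card_lt_card hlt
    rw [mem_sym, not_or] at hxA
    refine ⟨insert x A, Finset.insert_subset hx hAX, ?_, ?_⟩
    · rw [Finset.card_insert_of_notMem hxA.1, hAc]
    · intro a ha
      rw [Finset.mem_insert] at ha ⊢
      rcases ha with rfl | ha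
      · rw [not_or]; exact ⟨hno _ hx, hxA.2⟩
      · rw [not_or]
        refine ⟨?_, hA a ha⟩
        intro h
        apply hxA.2
        rw [← h, neg_neg]
        exact ha

/-- Near-symmetric minimisers for `h = 2` in elementary abelian 3-groups. -/
theorem three_iff (h3 : ∀ x : G, 3 • x = 0) {m : ℕ} (hm2 : 2 ≤ m) (hmn : m ≤ Fintype.card G) :
    NearSymmAttains G m 2 ↔ ∃ t, m < 3 ^ t ∧ 3 ^ t < 2 * m := by
  classical
  obtain ⟨r, hr⟩ := card_three _ G rfl h3
  rw [Nat.card_eq_fintype_card] at hr
  -- `t` with `3^(t-1) < m ≤ 3^t`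
  obtain ⟨t, ht1, ht2⟩ : ∃ t, 3 ^ t < m ∧ m ≤ 3 ^ (t + 1) := by
    have hne : ∃ t, m ≤ 3 ^ (t + 1) := ⟨m, (Nat.lt_pow_self (by norm_num : 1 < 3)).le.trans
      (Nat.pow_le_pow_right (by norm_num) (Nat.le_succ m))⟩
    refine ⟨Nat.find hne, ?_, Nat.find_spec hne⟩
    rcases Nat.eq_zero_or_pos (Nat.find hne) with h0 | h0
    · rw [h0]; simp; omega
    · have := Nat.find_min hne (m := Nat.find hne - 1) (by omega)
      rw [Nat.sub_add_cancel h0] at this
      omega
  have htr : t + 1 ≤ r := by
    have : 3 ^ t < 3 ^ r := by rw [← hr]; omega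
    exact (Nat.pow_lt_pow_iff_right (by norm_num)).1 this
  obtain ⟨K, hK⟩ := exists_addSubgroup_card _ G rfl (3 ^ (t + 1)) (by
    rw [Nat.card_eq_fintype_card, hr]
    exact pow_dvd_pow 3 htr)
  have hself : ∀ x : G, -x = x → x = 0 := by
    intro x hx
    have h1 : x + x = 0 := by
      nth_rewrite 1 [← hx]
      simp
    have h2 : 3 • x = x + x + x := by
      rw [succ_nsmul, two_nsmul]
    rw [h3 x, h1, zero_add] at h2
    exact h2.symm
  have hupper : rhoPM G m 2 ≤ 3 ^ (t + 1) := by
    rw [← hK]
    exact (rhoPM_le_of_symm (subF_symm K) (by rw [card_subF, hK]; exact ht2) 2).trans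
      (card_nsmul_subF_le K 2)
  -- lower bound for near-symmetric sets
  have hnear : ∀ A : Finset G, A.card = m → NearSymm A → ∀ s, 3 ^ s < m + 1 →
      3 ^ (s + 1) ≤ (signedSumset 2 A).ncard := by
    intro A hAc hA s hs
    obtain ⟨a, S, rfl, haS, haS', haa, hS⟩ := near_structure hA
    have hSc : S.card + 1 = m := by rw [← hAc, Finset.card_insert_of_notMem haS]
    have hSne : S.Nonempty := Finset.card_pos.1 (by omega)
    rw [near_eq hS hSne haS haS' haa, Set.ncard_coe_finset]
    apply three_bound _ G rfl h3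
    · intro x hx
      rw [Finset.mem_insert, Finset.mem_insert] at hx ⊢
      rcases hx with rfl | rfl | hx
      · simp
      · simp
      · exact Or.inr (Or.inr (hS x hx))
    · rw [Finset.card_insert_of_notMem, hAc]
      · exact hs
      · rw [Finset.mem_insert, not_or]; exact ⟨haa, haS'⟩
  constructor
  · rintro ⟨A, hAc, hA, hAr⟩
    refine ⟨t + 1, ?_, ?_⟩
    · rcases Nat.lt_or_ge m (3 ^ (t + 1)) with h | h
      · exact h
      · exfalso
        have := hnear A hAc hA (t + 1) (by omega)
        rw [hAr] at this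
        have h5 := this.trans hupper
        have := (Nat.pow_le_pow_iff_right (by norm_num : 1 < 3)).1 h5
        omega
    · by_contra hle
      push Not at hle
      -- an asymmetric set does better
      have hodd : Odd (3 ^ (t + 1)) := Odd.pow (by decide)
      have hlt : 2 * m < 3 ^ (t + 1) := by
        rcases Nat.lt_or_ge (2 * m) (3 ^ (t + 1)) with h | h
        · exact h
        · have : 2 * m = 3 ^ (t + 1) := by omega
          rw [← this] at hodd
          exact absurd hodd (by simp)
      obtain ⟨A', hA'X, hA'c, hA'⟩ := exists_asym (X := (subF K).erase 0)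
        (isSymm_erase (subF_symm K) neg_zero) m (by
          intro x hx hxx
          exact (Finset.mem_erase.1 hx).1 (hself x hxx)) (by
          rw [Finset.card_erase_of_mem (mem_subF.2 K.zero_mem), card_subF, hK]; omega)
      have hsub : signedSumset 2 A' ⊆ (((subF K).erase 0 : Finset G) : Set G) := by
        intro x hx
        rw [Finset.mem_coe, Finset.mem_erase]
        refine ⟨?_, ?_⟩
        · rintro rfl
          exact zero_not_mem_signed h3 hA' hx
        · have := signed_subset (A := A') (B := subF K) (fun a ha =>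
            ⟨Finset.mem_of_mem_erase (hA'X ha),
              subF_symm K a (Finset.mem_of_mem_erase (hA'X ha))⟩) 2 hx
          exact nsmul_subF K 2 (Finset.mem_coe.1 this)
      have h5 : (signedSumset 2 A').ncard ≤ 3 ^ (t + 1) - 1 := by
        refine (Set.ncard_le_ncard hsub (Set.toFinite _)).trans ?_
        rw [Set.ncard_coe_finset, Finset.card_erase_of_mem (mem_subF.2 K.zero_mem), card_subF, hK]
      have h6 := rhoPM_le hA'c 2
      have h7 := hnear A hAc hA t (by omega)
      have : 0 < 3 ^ (t + 1) := by positivity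
      omega
  · rintro ⟨s, hs1, hs2⟩
    have hst : s = t + 1 := by
      have h5 : 3 ^ t < 3 ^ s := lt_trans ht1 hs1
      have h6 : 3 ^ s < 3 ^ (t + 2) := by
        calc 3 ^ s < 2 * m := hs2
          _ ≤ 2 * 3 ^ (t + 1) := by omega
          _ < 3 ^ (t + 2) := by
            rw [pow_succ 3 (t + 1)]
            have : 0 < 3 ^ (t + 1) := by positivity
            omega
      have := (Nat.pow_lt_pow_iff_right (by norm_num : 1 < 3)).1 h5
      have := (Nat.pow_lt_pow_iff_right (by norm_num : 1 < 3)).1 h6
      omega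
    subst hst
    -- lower bound
    have hlower : 3 ^ (t + 1) ≤ rhoPM G m 2 := by
      obtain ⟨A, hA, hAr⟩ := rhoPM_mem (G := G) hmn 2
      rw [hAr]
      have hAne : A.Nonempty := Finset.card_pos.1 (by omega)
      by_cases h0 : ∃ a ∈ A, -a ∈ A
      · refine le_trans ?_ (signed_two_ge_of_mem hAne h0)
        apply three_bound _ G rfl h3 _ (sym_symm A)
        refine lt_of_lt_of_le (hA ▸ ht1) (Finset.card_le_card ?_)
        intro x hx
        exact mem_sym.2 (Or.inl hx)
      · push Not at h0
        have h8 := three_bound _ G rfl h3 _ (sym_symm A) (t + 1) (by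
          rw [card_sym_of_asym h0, hA]; exact hs2)
        have h9 := signed_two_ge hAne
        have : 0 < 3 ^ (t + 1) := by positivity
        rw [pow_succ 3 (t + 1)] at h8
        omega
    -- a near-symmetric set inside the subgroup
    obtain ⟨a, haK, haa⟩ : ∃ a ∈ K, -a ≠ a := by
      by_contra hno
      push Not at hno
      have h5 : subF K ⊆ {0} := by
        intro x hx
        exact Finset.mem_singleton.2 (hself x (hno x (mem_subF.1 hx)))
      have h6 := Finset.card_le_card h5
      rw [card_subF, hK, Finset.card_singleton] at h6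
      omega
    obtain ⟨A, hAX, hAc, hAn⟩ := exists_near (subF_symm K) (mem_subF.2 haK) haa (m := m) (by omega)
      (by rw [card_subF, hK]; exact hs1) (Or.inr ⟨0, mem_subF.2 K.zero_mem, neg_zero⟩)
    refine ⟨A, hAc, hAn, le_antisymm ?_ (rhoPM_le hAc 2)⟩
    refine (ncard_signed_le hAX (subF_symm K) 2).trans ((card_nsmul_subF_le K 2).trans ?_)
    rw [hK]; exact hlower

end

end SignedSum
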